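import Mathlib

/-!
# Achievement sets of planar series: definitions

A series of vectors in the plane is given by the sequence `x : ℕ → ℝ × ℝ` of its terms.
-/

open Filter Topology

namespace Pool.Agent.Lib.MP_160bbb_an_Achieve

/-- The series with terms `x 0, x 1, x 2, …`, summed in this order, converges to `s`: the partial
sums `x 0 + ⋯ + x (N - 1)` tend to `s` as `N → ∞`. -/
def SumsTo (x : ℕ → ℝ × ℝ) (s : ℝ × ℝ) : Prop :=
  Tendsto (fun N : ℕ => ∑ n ∈ Finset.range N, x n) atTop (𝓝 s)

/-- The series with terms `x n` is conditionally convergent: it converges, but the sum of the norms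
of its terms is infinite. -/
def CondConvergent (x : ℕ → ℝ × ℝ) : Prop :=
  (∃ s, SumsTo x s) ∧ ¬ Summable (fun n => ‖x n‖)

/-- The sum range: the set of sums of the convergent rearrangements of the series. -/
def sumRange (x : ℕ → ℝ × ℝ) : Set (ℝ × ℝ) :=
  {s | ∃ σ : Equiv.Perm ℕ, SumsTo (fun n => x (σ n)) s}

/-- The achievement set: the set of sums of the convergent series `∑ ε n • x n`, where every
coefficient `ε n` is `0` or `1` and the terms are taken in their original order. -/
def achievementSet (x : ℕ → ℝ × ℝ) : Set (ℝ × ℝ) :=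
  {s | ∃ ε : ℕ → ℝ, (∀ n, ε n = 0 ∨ ε n = 1) ∧ SumsTo (fun n => ε n • x n) s}

end Pool.Agent.Lib.MP_160bbb_an_Achieve
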