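import Pool.Agent.Lib.MP_160bbb_an_Achieve.Defs

/-!
# A greedy rearrangement lemma

If inside every cofinite set of indices every vector can be approximated by finite sums all of whose
initial segments stay small, then the series can be rearranged to converge to any given vector.
-/

open Filter Topology

namespace Pool.Agent.Lib.MP_160bbb_an_Achieve

section Greedy

variable (x : ℕ → ℝ × ℝ)

/-- the correction hypothesis -/
def Correctable : Prop :=
  ∀ (F : Finset ℕ) (w : ℝ × ℝ) (η : ℝ), 0 < η → ∃ L : List ℕ, L.Nodup ∧ (∀ i ∈ L, i ∉ F) ∧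
    ‖(L.map x).sum - w‖ ≤ η ∧ ∀ L', L' <+: L → ‖(L'.map x).sum‖ ≤ ‖w‖ + η

lemma exists_least_unused (l : List ℕ) : ∃ i, i ∉ l ∧ ∀ j < i, j ∈ l := by
  classical
  have h : ∃ i, i ∉ l := by
    obtain ⟨i, hi⟩ := Infinite.exists_notMem_finset l.toFinset
    exact ⟨i, by simpa using hi⟩
  refine ⟨Nat.find h, Nat.find_spec h, fun j hj => ?_⟩
  have := Nat.find_min h hj
  simpa using this

lemma exists_step (hx : Correctable x) (p : ℝ × ℝ) (l : List ℕ) (η : ℝ) (hη : 0 < η)
    (hl : l.Nodup) :
    ∃ l' : List ℕ, l'.Nodup ∧ l <+: l' ∧ (∃ i, i ∈ l' ∧ i ∉ l ∧ (∀ j < i, j ∈ l) ∧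
      ‖(l'.map x).sum - p‖ ≤ η ∧ ∀ m, l <+: m → m <+: l' →
        ‖(m.map x).sum - p‖ ≤ 2 * ‖(l.map x).sum - p‖ + 2 * ‖x i‖ + η) := by
  obtain ⟨i, hi, hi'⟩ := exists_least_unused l
  obtain ⟨L, hL1, hL2, hL3, hL4⟩ := hx (i :: l).toFinset (p - (l.map x).sum - x i) η hη
  have hw : ‖p - (l.map x).sum - x i‖ ≤ ‖(l.map x).sum - p‖ + ‖x i‖ := by
    calc ‖p - (l.map x).sum - x i‖ ≤ ‖p - (l.map x).sum‖ + ‖x i‖ := norm_sub_le _ _
      _ = ‖(l.map x).sum - p‖ + ‖x i‖ := by rw [norm_sub_rev]
  refine ⟨l ++ (i :: L), ?_, List.prefix_append _ _, i, by simp, hi, hi', ?_, ?_⟩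
  · rw [List.nodup_append]
    refine ⟨hl, ?_, ?_⟩
    · rw [List.nodup_cons]
      refine ⟨fun h => ?_, hL1⟩
      have := hL2 i h
      simp at this
    · intro a ha b hb hab
      subst hab
      rcases List.mem_cons.1 hb with rfl | hb
      · exact hi ha
      · have := hL2 a hb
        simp [ha] at this
  · have : ((l ++ (i :: L)).map x).sum - p = (L.map x).sum - (p - (l.map x).sum - x i) := by
      simp only [List.map_append, List.map_cons, List.sum_append, List.sum_cons]
      abel
    rw [this]
    exact hL3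
  · intro m hm hm'
    obtain ⟨t, rfl⟩ := hm
    have ht : t <+: i :: L := by
      rwa [List.prefix_append_right_inj] at hm'
    rcases t with _ | ⟨a, t⟩
    · simp only [List.append_nil]
      have h1 := norm_nonneg ((l.map x).sum - p)
      have h2 := norm_nonneg (x i)
      linarith
    · rw [List.cons_prefix_cons] at ht
      obtain ⟨rfl, ht⟩ := ht
      have h3 := hL4 t ht
      have : ((l ++ (a :: t)).map x).sum - p = ((l.map x).sum - p) + x a + (t.map x).sum := by
        simp only [List.map_append, List.map_cons, List.sum_append, List.sum_cons]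
        abel
      rw [this]
      calc ‖((l.map x).sum - p) + x a + (t.map x).sum‖
          ≤ ‖((l.map x).sum - p) + x a‖ + ‖(t.map x).sum‖ := norm_add_le _ _
        _ ≤ ‖(l.map x).sum - p‖ + ‖x a‖ + ‖(t.map x).sum‖ := by
            gcongr; exact norm_add_le _ _
        _ ≤ _ := by linarith

/-- the sequence of lists -/
noncomputable def lists (hx : Correctable x) (p : ℝ × ℝ) : ℕ → {l : List ℕ // l.Nodup}
  | 0 => ⟨[], List.nodup_nil⟩
  | n + 1 => ⟨(exists_step x hx p (lists hx p n).1 ((1 / 2 : ℝ) ^ n) (by positivity)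
      (lists hx p n).2).choose,
      (exists_step x hx p (lists hx p n).1 ((1 / 2 : ℝ) ^ n) (by positivity)
      (lists hx p n).2).choose_spec.1⟩

variable {x}

lemma lists_spec (hx : Correctable x) (p : ℝ × ℝ) (n : ℕ) :
    (lists x hx p n).1 <+: (lists x hx p (n + 1)).1 ∧
    ∃ i, i ∈ (lists x hx p (n + 1)).1 ∧ i ∉ (lists x hx p n).1 ∧
      (∀ j < i, j ∈ (lists x hx p n).1) ∧
      ‖((lists x hx p (n + 1)).1.map x).sum - p‖ ≤ (1 / 2 : ℝ) ^ n ∧
      ∀ m, (lists x hx p n).1 <+: m → m <+: (lists x hx p (n + 1)).1 →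
        ‖(m.map x).sum - p‖ ≤ 2 * ‖((lists x hx p n).1.map x).sum - p‖ + 2 * ‖x i‖ +
          (1 / 2 : ℝ) ^ n :=
  (exists_step x hx p (lists x hx p n).1 ((1 / 2 : ℝ) ^ n) (by positivity)
      (lists x hx p n).2).choose_spec.2

lemma lists_mono (hx : Correctable x) (p : ℝ × ℝ) {m n : ℕ} (h : m ≤ n) :
    (lists x hx p m).1 <+: (lists x hx p n).1 := by
  induction n, h using Nat.le_induction with
  | base => exact List.prefix_refl _
  | succ n _ ih => exact ih.trans (lists_spec hx p n).1

lemma mem_lists (hx : Correctable x) (p : ℝ × ℝ) (n : ℕ) : ∀ j < n, j ∈ (lists x hx p n).1 := by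
  induction n with
  | zero => intro j hj; omega
  | succ n ih =>
    obtain ⟨h1, i, hi1, hi2, hi3, -⟩ := lists_spec hx p n
    intro j hj
    by_cases h : j ∈ (lists x hx p n).1
    · exact h1.subset h
    · have hjn : j = n := by
        by_contra hne
        exact h (ih j (by omega))
      have : i = j := by
        by_contra hne
        rcases lt_or_gt_of_ne hne with h' | h'
        · exact hi2 (ih i (by omega))
        · exact h (hi3 j h')
      rwa [← this]

lemma le_length_lists (hx : Correctable x) (p : ℝ × ℝ) (n : ℕ) :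
    n ≤ (lists x hx p n).1.length := by
  classical
  have h1 : (Finset.range n) ⊆ (lists x hx p n).1.toFinset := by
    intro j hj
    rw [List.mem_toFinset]
    exact mem_lists hx p n j (Finset.mem_range.1 hj)
  have h2 := Finset.card_le_card h1
  rw [Finset.card_range] at h2
  exact h2.trans (List.toFinset_card_le _)

/-- the rearrangement -/
noncomputable def rearr (hx : Correctable x) (p : ℝ × ℝ) (m : ℕ) : ℕ :=
  (lists x hx p (m + 1)).1[m]'(le_length_lists hx p (m + 1))

lemma getElem_lists (hx : Correctable x) (p : ℝ × ℝ) {m n : ℕ}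
    (h : m < (lists x hx p n).1.length) : (lists x hx p n).1[m] = rearr hx p m := by
  unfold rearr
  rcases le_total n (m + 1) with h' | h'
  · exact (lists_mono hx p h').getElem h
  · exact ((lists_mono hx p h').getElem (le_length_lists hx p (m + 1))).symm

lemma rearr_injective (hx : Correctable x) (p : ℝ × ℝ) : Function.Injective (rearr hx p) := by
  intro m n h
  have hm : m < (lists x hx p (m + n + 1)).1.length :=
    lt_of_lt_of_le (by omega) (le_length_lists hx p _)
  have hn : n < (lists x hx p (m + n + 1)).1.length :=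
    lt_of_lt_of_le (by omega) (le_length_lists hx p _)
  rw [← getElem_lists hx p hm, ← getElem_lists hx p hn] at h
  exact (List.Nodup.getElem_inj_iff (lists x hx p _).2).1 h

lemma rearr_surjective (hx : Correctable x) (p : ℝ × ℝ) : Function.Surjective (rearr hx p) := by
  intro j
  obtain ⟨m, hm, h⟩ := List.getElem_of_mem (mem_lists hx p (j + 1) j (by omega))
  exact ⟨m, by rw [← getElem_lists hx p hm, h]⟩

lemma sum_rearr (hx : Correctable x) (p : ℝ × ℝ) (n m : ℕ)
    (h : m ≤ (lists x hx p n).1.length) :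
    ∑ i ∈ Finset.range m, x (rearr hx p i) = (((lists x hx p n).1.take m).map x).sum := by
  induction m with
  | zero => simp
  | succ m ih =>
    rw [Finset.sum_range_succ, ih (by omega), List.take_add_one]
    rw [List.getElem?_eq_getElem (by omega), getElem_lists hx p (by omega)]
    simp

/-- If inside every cofinite set of indices every vector can be approximated by finite sums all of
whose initial segments stay small, then the sum range is the whole plane. -/
theorem sumRange_of_correctable (hx : Correctable x) (h0 : Tendsto x atTop (𝓝 0)) :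
    sumRange x = Set.univ := by
  rw [Set.eq_univ_iff_forall]
  intro p
  refine ⟨Equiv.ofBijective (rearr hx p) ⟨rearr_injective hx p, rearr_surjective hx p⟩, ?_⟩
  unfold SumsTo
  rw [Metric.tendsto_atTop]
  intro ε hε
  rw [Metric.tendsto_atTop] at h0
  obtain ⟨N1, hN1⟩ := h0 (ε / 8) (by positivity)
  obtain ⟨N2, hN2⟩ := exists_pow_lt_of_lt_one (show 0 < ε / 8 by positivity)
    (show (1 / 2 : ℝ) < 1 by norm_num)
  set N := max N1 N2 with hN
  refine ⟨(lists x hx p (N + 1)).1.length, fun m hm => ?_⟩
  -- find n ≥ N + 1 with length l_n ≤ m < length l_{n+1}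
  have hex : ∃ n, m < (lists x hx p n).1.length :=
    ⟨m + 1, le_length_lists hx p (m + 1)⟩
  classical
  set n := Nat.find hex with hn
  have hn1 : m < (lists x hx p n).1.length := Nat.find_spec hex
  have hn2 : N + 1 < n := by
    by_contra hcon
    push Not at hcon
    have := (lists_mono hx p hcon).length_le
    omega
  obtain ⟨k, hk⟩ : ∃ k, n = k + 1 := ⟨n - 1, by omega⟩
  have hk1 : (lists x hx p k).1.length ≤ m := by
    have := Nat.find_min hex (m := k) (by omega)
    push Not at this
    exact this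
  rw [hk] at hn1
  have hsum := sum_rearr hx p (k + 1) m hn1.le
  simp only [Equiv.ofBijective_apply]
  rw [hsum, dist_eq_norm]
  obtain ⟨h1, i, hi1, hi2, hi3, -, hi5⟩ := lists_spec hx p k
  have hpre : (lists x hx p k).1 <+: (lists x hx p (k + 1)).1.take m := by
    rw [List.prefix_take_iff]
    exact ⟨h1, hk1⟩
  have h6 := hi5 _ hpre (List.take_prefix _ _)
  -- the three terms
  obtain ⟨k', hk'⟩ : ∃ k', k = k' + 1 := ⟨k - 1, by omega⟩
  obtain ⟨-, i', -, -, -, hi4', -⟩ := lists_spec hx p k'
  rw [← hk'] at hi4'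
  have hiN : N1 ≤ i := by
    by_contra hcon
    push Not at hcon
    exact hi2 (mem_lists hx p k i (by omega))
  have hxi : ‖x i‖ < ε / 8 := by
    have := hN1 i hiN
    rwa [dist_zero_right] at this
  have hp1 : (1 / 2 : ℝ) ^ k ≤ (1 / 2 : ℝ) ^ N2 :=
    pow_le_pow_of_le_one (by norm_num) (by norm_num) (by omega)
  have hp2 : (1 / 2 : ℝ) ^ k' ≤ (1 / 2 : ℝ) ^ N2 :=
    pow_le_pow_of_le_one (by norm_num) (by norm_num) (by omega)
  linarith

end Greedy

end Pool.Agent.Lib.MP_160bbb_an_Achieve
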