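import Mathlib

/-!
# The scales, and the point which is not reached

`B k` is the coarse and `e k` the fine unit of the second coordinate in block `k`, `M k` is the
number of copies of each vector in block `k`.
-/

open Filter Topology

namespace Pool.Agent.Lib.MP_160bbb_an_Achieve

/-- exponent of the coarse unit -/
def bexp : ℕ → ℕ
  | 0 => 0
  | k + 1 => 2 * bexp k + k + 4

/-- the number of copies -/
def M (k : ℕ) : ℕ := 2 ^ (k + 1 + bexp k)

/-- the coarse unit -/
noncomputable def B (k : ℕ) : ℝ := (1 / 2) ^ (bexp k)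

/-- the fine unit -/
noncomputable def e (k : ℕ) : ℝ := (1 / 2) ^ (2 * bexp k + k + 3)

lemma B_zero : B 0 = 1 := by simp [B, bexp]

lemma B_pos (k : ℕ) : 0 < B k := by unfold B; positivity

lemma e_pos (k : ℕ) : 0 < e k := by unfold e; positivity

lemma M_cast (k : ℕ) : (M k : ℝ) = 2 ^ (k + 1 + bexp k) := by simp [M]

lemma M_pos (k : ℕ) : 0 < M k := by unfold M; positivity

lemma B_eq (k : ℕ) : B k = 4 * M k * e k := by
  rw [M_cast]
  unfold B e
  have h : (1 / 2 : ℝ) ^ (2 * bexp k + k + 3) =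
      (1 / 2) ^ (bexp k) * ((1 / 2) ^ (k + 1 + bexp k) * (1 / 2) ^ 2) := by
    rw [← pow_add, ← pow_add]; congr 1; ring
  rw [h]
  have h2 : (2 : ℝ) ^ (k + 1 + bexp k) * (1 / 2) ^ (k + 1 + bexp k) = 1 := by
    rw [← mul_pow]; norm_num
  calc (1 / 2 : ℝ) ^ bexp k = (1 / 2) ^ (bexp k) *
      ((2 : ℝ) ^ (k + 1 + bexp k) * (1 / 2) ^ (k + 1 + bexp k)) := by rw [h2, mul_one]
    _ = _ := by ring

lemma e_eq (k : ℕ) : e k = 2 * B (k + 1) := by
  unfold B e
  rw [show bexp (k + 1) = 2 * bexp k + k + 4 from rfl, pow_succ (1 / 2 : ℝ) (2 * bexp k + k + 3)]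
  ring

lemma M_mul_B (k : ℕ) : (M k : ℝ) * B k = 2 ^ (k + 1) := by
  rw [M_cast]
  unfold B
  rw [pow_add, mul_assoc, ← mul_pow]
  norm_num

lemma two_pow_le_M (k : ℕ) : 2 ^ (k + 1) ≤ M k := by
  unfold M
  exact Nat.pow_le_pow_right (by norm_num) (by omega)

lemma B_succ (k : ℕ) : 8 * M k * B (k + 1) = B k := by
  rw [B_eq k, e_eq]; ring

lemma B_le_one (k : ℕ) : B k ≤ 1 := by
  unfold B; exact pow_le_one₀ (by norm_num) (by norm_num)

/-- `2 ^ (k+1) * B (k+1) = B k ^ 2 / 8` -/
lemma pow_mul_B_succ (k : ℕ) : 2 ^ (k + 1) * B (k + 1) = B k ^ 2 / 8 := by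
  have h1 := B_succ k
  have h2 := M_mul_B k
  have h3 := B_pos k
  have : 8 * (2 ^ (k + 1) * B (k + 1)) = B k ^ 2 := by
    rw [← h2]
    calc 8 * ((M k : ℝ) * B k * B (k + 1)) = (8 * M k * B (k + 1)) * B k := by ring
      _ = B k ^ 2 := by rw [h1]; ring
  linarith

lemma B_succ_le (k : ℕ) : B (k + 1) ≤ B k / 16 := by
  have h1 := B_succ k
  have h2 : (2 : ℝ) ≤ M k := by
    have := two_pow_le_M k
    have h3 : 2 ^ 1 ≤ 2 ^ (k + 1) := Nat.pow_le_pow_right (by norm_num) (by omega)
    have h4 : 2 ≤ M k := by omega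
    exact_mod_cast h4
  have h3 := B_pos (k + 1)
  nlinarith

lemma B_le_pow (k : ℕ) : B k ≤ (1 / 4) ^ k := by
  induction k with
  | zero => simp [B_zero]
  | succ k ih =>
    have := B_succ_le k
    have h2 := B_pos k
    rw [pow_succ]
    linarith

lemma e_le_B (k : ℕ) : e k ≤ B k := by
  rw [e_eq]
  have := B_succ_le k
  have := B_pos k
  linarith

lemma tendsto_B : Tendsto B atTop (𝓝 0) :=
  squeeze_zero (fun k => (B_pos k).le) B_le_pow
    (tendsto_pow_atTop_nhds_zero_of_lt_one (by norm_num) (by norm_num))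

lemma tendsto_e : Tendsto e atTop (𝓝 0) :=
  squeeze_zero (fun k => (e_pos k).le) e_le_B tendsto_B

lemma summable_B : Summable B :=
  Summable.of_nonneg_of_le (fun k => (B_pos k).le) B_le_pow
    (summable_geometric_of_lt_one (by norm_num) (by norm_num))

/-- centres of the gaps -/
noncomputable def z (k : ℕ) : ℝ := 3 + ∑ j ∈ Finset.range k, B j / 2

/-- the point which is not reached -/
noncomputable def ystar : ℝ := 3 + ∑' j, B j / 2

lemma tendsto_z : Tendsto z atTop (𝓝 ystar) := by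
  unfold ystar
  have h : HasSum (fun j => B j / 2) (∑' j, B j / 2) := (summable_B.div_const 2).hasSum
  exact (h.tendsto_sum_nat).const_add 3

/-- partial sums of the second coordinate -/
noncomputable def Y (t q : ℕ → ℤ) (k : ℕ) : ℝ := ∑ j ∈ Finset.range k, (t j * B j + q j * e j)

lemma gap_int (m n w t q Mk : ℤ) (hn : m ≤ |n|) (hw : w = n + t) (hM : 1 ≤ Mk)
    (hq : |t| + |q| ≤ 2 * Mk) : m - 1 ≤ |4 * Mk * w + q - 2 * Mk| := by
  subst hw
  -- case distinction on the sign of w
  rcases le_or_gt 1 (n + t) with h | h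
  · -- w ≥ 1
    have h1 : 2 * Mk * (n + t) ≤ 4 * Mk * (n + t) - 2 * Mk := by nlinarith
    have h2 : q ≥ -(2 * Mk - |t|) := by
      have := neg_abs_le q
      linarith
    have h3 : 4 * Mk * (n + t) + q - 2 * Mk ≥ |t| + (4 * Mk * (n + t) - 4 * Mk) := by linarith
    have h4 : (n + t) - 1 ≤ 4 * Mk * (n + t) - 4 * Mk := by nlinarith
    have h5 : |n| ≤ (n + t) + |t| := by
      rcases abs_cases n with ⟨h6, h7⟩ | ⟨h6, h7⟩
      · rw [h6]; linarith [neg_abs_le t]
      · rw [h6]
        have := le_abs_self t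
        linarith
    exact le_trans (by linarith) (le_abs_self _)
  · -- w ≤ 0
    have h0 : n + t ≤ 0 := by omega
    have h2 : q ≤ 2 * Mk - |t| := by
      have := le_abs_self q
      linarith
    have h3 : 4 * Mk * (n + t) + q - 2 * Mk ≤ -|t| + 4 * Mk * (n + t) := by linarith
    have h4 : 4 * Mk * (n + t) ≤ n + t := by nlinarith
    have h5 : |n| ≤ |t| - (n + t) := by
      rcases abs_cases n with ⟨h6, h7⟩ | ⟨h6, h7⟩
      · rw [h6]
        have := neg_abs_le t
        linarith
      · rw [h6]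
        have := neg_abs_le t
        have := le_abs_self t
        linarith
    have h6 : 4 * Mk * (n + t) + q - 2 * Mk ≤ -m := by linarith
    rw [abs_of_nonpos]
    · linarith
    · have : 0 ≤ |t| := abs_nonneg t
      nlinarith

/-- All finite sums stay away from the centres of the gaps. -/
lemma gap (t q : ℕ → ℤ) (h : ∀ k, |t k| + |q k| ≤ 2 * M k) (k : ℕ) :
    ∃ n : ℤ, Y t q k = z k + n * B k ∧ (2 : ℤ) ^ k + 2 ≤ |n| := by
  induction k with
  | zero => exact ⟨-3, by simp [Y, z, B_zero], by norm_num⟩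
  | succ k ih =>
    obtain ⟨n, hn1, hn2⟩ := ih
    refine ⟨2 * (4 * M k * (n + t k) + q k - 2 * M k), ?_, ?_⟩
    · have hY : Y t q (k + 1) = Y t q k + (t k * B k + q k * e k) := by
        unfold Y; rw [Finset.sum_range_succ]
      have hz : z (k + 1) = z k + B k / 2 := by
        unfold z; rw [Finset.sum_range_succ]; ring
      rw [hY, hz, hn1]
      push_cast
      have h1 := B_eq k
      have h2 := e_eq k
      have h3 : B (k + 1) = e k / 2 := by linarith
      rw [h3, h1]
      ring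
    · have := gap_int (2 ^ k + 2) n (n + t k) (t k) (q k) (M k) hn2 rfl
        (by exact_mod_cast M_pos k) (h k)
      rw [abs_mul, pow_succ]
      norm_num at this ⊢
      linarith

/-- The point `ystar` is not reached with costs tending to zero. -/
theorem not_reached (t q : ℕ → ℤ) (h : ∀ k, |t k| + |q k| ≤ 2 * M k)
    (ht : Tendsto (fun k => (t k : ℝ) * (1 / 2) ^ k) atTop (𝓝 0))
    (hY : Tendsto (Y t q) atTop (𝓝 ystar)) : False := by
  -- the costs are eventually at most 1 / 8
  obtain ⟨k0, hk0⟩ := (Metric.tendsto_atTop.1 ht) (1 / 8) (by norm_num)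
  set K := max k0 3 with hK
  have hcost : ∀ k, K ≤ k → |(t k : ℝ)| ≤ 2 ^ k / 8 := by
    intro k hk
    have h1 := hk0 k (by omega)
    rw [dist_zero_right, Real.norm_eq_abs, abs_mul, abs_of_pos (show (0 : ℝ) < (1 / 2) ^ k by
      positivity)] at h1
    have h2 : (1 / 2 : ℝ) ^ k * 2 ^ k = 1 := by rw [← mul_pow]; norm_num
    have h3 : (0 : ℝ) < 2 ^ k := by positivity
    calc |(t k : ℝ)| = |(t k : ℝ)| * ((1 / 2 : ℝ) ^ k * 2 ^ k) := by rw [h2, mul_one]
      _ = (|(t k : ℝ)| * (1 / 2 : ℝ) ^ k) * 2 ^ k := by ring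
      _ ≤ (1 / 8) * 2 ^ k := by gcongr
      _ = 2 ^ k / 8 := by ring
  -- potential function
  have hstep : ∀ k, K ≤ k → |Y t q k - z k| - 2 ^ k * B k / 2 ≤
      |Y t q (k + 1) - z (k + 1)| - 2 ^ (k + 1) * B (k + 1) / 2 := by
    intro k hk
    have h1 : Y t q (k + 1) - z (k + 1) = (Y t q k - z k) + (t k * B k + q k * e k - B k / 2) := by
      unfold Y z; rw [Finset.sum_range_succ, Finset.sum_range_succ]; ring
    have h2 : |Y t q k - z k| ≤ |Y t q (k + 1) - z (k + 1)| +
        |t k * B k + q k * e k - B k / 2| := by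
      rw [h1]
      have := abs_sub ((Y t q k - z k) + (t k * B k + q k * e k - B k / 2))
        (t k * B k + q k * e k - B k / 2)
      rw [add_sub_cancel_right] at this
      exact this
    have hq : |(q k : ℝ)| ≤ 2 * M k := by
      have h3 := h k
      have h4 : |q k| ≤ 2 * M k := le_trans (by linarith [abs_nonneg (t k)]) h3
      have : ((|q k| : ℤ) : ℝ) ≤ ((2 * M k : ℤ) : ℝ) := by exact_mod_cast h4
      push_cast at this
      exact this
    have h5 : |t k * B k + q k * e k - B k / 2| ≤ 2 ^ k / 8 * B k + B k := by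
      calc |t k * B k + q k * e k - B k / 2| ≤ |t k * B k + q k * e k| + |B k / 2| := abs_sub _ _
        _ ≤ |t k * B k| + |q k * e k| + |B k / 2| := by gcongr; exact abs_add_le _ _
        _ = |(t k : ℝ)| * B k + |(q k : ℝ)| * e k + B k / 2 := by
            rw [abs_mul, abs_mul, abs_of_pos (B_pos k), abs_of_pos (e_pos k),
              abs_of_pos (half_pos (B_pos k))]
        _ ≤ 2 ^ k / 8 * B k + 2 * M k * e k + B k / 2 := by
            have := hcost k hk
            have := (B_pos k).le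
            have := (e_pos k).le
            gcongr
        _ = 2 ^ k / 8 * B k + B k := by rw [B_eq k]; ring
    have h6 := pow_mul_B_succ k
    have h7 : B k ^ 2 ≤ B k := by
      have := B_pos k
      have := B_le_one k
      nlinarith
    have h8 : (8 : ℝ) ≤ 2 ^ k := by
      calc (8 : ℝ) = 2 ^ 3 := by norm_num
        _ ≤ 2 ^ k := pow_le_pow_right₀ (by norm_num) (by omega)
    have h9 := B_pos k
    rw [h6]
    nlinarith
  have hmono : ∀ k, K ≤ k → |Y t q K - z K| - 2 ^ K * B K / 2 ≤ |Y t q k - z k| := by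
    intro k hk
    have : |Y t q K - z K| - 2 ^ K * B K / 2 ≤ |Y t q k - z k| - 2 ^ k * B k / 2 := by
      induction k, hk using Nat.le_induction with
      | base => exact le_refl _
      | succ k hk ih => exact ih.trans (hstep k hk)
    have h2 : 0 ≤ 2 ^ k * B k / 2 := by have := B_pos k; positivity
    linarith
  have hpos : 0 < |Y t q K - z K| - 2 ^ K * B K / 2 := by
    obtain ⟨n, hn1, hn2⟩ := gap t q h K
    rw [hn1, add_sub_cancel_left, abs_mul, abs_of_pos (B_pos K)]
    have h1 : (2 : ℝ) ^ K + 2 ≤ |(n : ℝ)| := by exact_mod_cast hn2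
    have h2 := B_pos K
    have h3 : (0 : ℝ) < 2 ^ K := by positivity
    nlinarith
  have hlim : Tendsto (fun k => |Y t q k - z k|) atTop (𝓝 |ystar - ystar|) :=
    (hY.sub tendsto_z).abs
  rw [sub_self, abs_zero] at hlim
  have := ge_of_tendsto hlim (eventually_atTop.2 ⟨K, hmono⟩)
  linarith

end Pool.Agent.Lib.MP_160bbb_an_Achieve
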