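import Pool.Agent.Lib.MP_160bbb_an_Achieve.Part2

/-!
# The points which are reached
-/

open Filter Topology

namespace Pool.Agent.Lib.MP_160bbb_an_Achieve

lemma rnd_mono {a b : ℝ} (h : a ≤ b) : round a ≤ round b := by
  rw [round_eq, round_eq]
  exact Int.floor_le_floor (by linarith)

lemma exists_q (Mk : ℕ) (t : ℤ) (u : ℝ) (ht : |t| ≤ 2 * Mk) (hu : |u| ≤ 2 * Mk) :
    ∃ q : ℤ, |t| + |q| ≤ 2 * Mk ∧ (2 : ℤ) ∣ (t + q) ∧ |u - q| ≤ max 1 (|(t : ℝ)|) ∧
      (|u| ≤ 2 * Mk - |(t : ℝ)| → |u - q| ≤ 1) := by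
  obtain ⟨N, hN⟩ : ∃ N : ℕ, (N : ℤ) = 2 * Mk - |t| :=
    ⟨(2 * Mk - |t|).toNat, by rw [Int.toNat_of_nonneg]; linarith⟩
  have hNR : (N : ℝ) = 2 * Mk - |(t : ℝ)| := by
    have : ((N : ℤ) : ℝ) = ((2 * Mk - |t| : ℤ) : ℝ) := by rw [hN]
    push_cast at this
    exact this
  have hpar : (2 : ℤ) ∣ t + N := by
    rw [hN]
    rcases abs_cases t with ⟨h, _⟩ | ⟨h, _⟩ <;> rw [h]
    · exact ⟨Mk, by ring⟩
    · exact ⟨t + Mk, by ring⟩
  have htabs : 0 ≤ |(t : ℝ)| := abs_nonneg _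
  rcases le_or_gt |u| N with h | h
  · -- nearest integer of the right parity
    have hu1 := abs_le.1 h
    set j := round ((N - u) / 2) with hj
    have hj1 : |(N - u) / 2 - j| ≤ 1 / 2 := abs_sub_round _
    have hj1' := abs_le.1 hj1
    have hj0 : 0 ≤ j := by
      have : (-1 : ℝ) < j := by linarith
      have : (-1 : ℤ) < j := by exact_mod_cast this
      omega
    have hjN : j ≤ N := by
      have : (j : ℝ) < N + 1 := by linarith
      have : j < (N : ℤ) + 1 := by exact_mod_cast this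
      omega
    refine ⟨N - 2 * j, ?_, ?_, ?_, ?_⟩
    · have : |(N : ℤ) - 2 * j| ≤ N := abs_le.2 ⟨by linarith, by linarith⟩
      linarith
    · obtain ⟨a, ha⟩ := hpar
      exact ⟨a - j, by linarith⟩
    · have : |u - ((N - 2 * j : ℤ) : ℝ)| ≤ 1 := by
        push_cast
        rw [abs_le]
        constructor <;> linarith
      exact le_max_of_le_left this
    · intro _
      push_cast
      rw [abs_le]
      constructor <;> linarith
  · -- clipped
    have hnot : ¬ (|u| ≤ 2 * Mk - |(t : ℝ)|) := by rw [← hNR]; exact not_le.2 h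
    rcases le_or_gt 0 u with h0 | h0
    · refine ⟨N, ?_, hpar, ?_, fun h' => absurd h' hnot⟩
      · have : |(N : ℤ)| = N := abs_of_nonneg (by positivity)
        linarith
      · apply le_max_of_le_right
        rw [abs_of_nonneg h0] at h hu
        push_cast
        rw [abs_of_nonneg (by linarith)]
        linarith
    · refine ⟨-N, ?_, ?_, ?_, fun h' => absurd h' hnot⟩
      · have : |(-(N : ℤ))| = N := by rw [abs_neg]; exact abs_of_nonneg (by positivity)
        linarith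
      · obtain ⟨a, ha⟩ := hpar
        exact ⟨a - N, by linarith⟩
      · apply le_max_of_le_right
        rw [abs_of_neg h0] at h hu
        push_cast
        rw [abs_of_nonpos (by linarith)]
        linarith

/-- the coarse digit -/
noncomputable def tt (k : ℕ) (r : ℝ) : ℤ := round (r / B k)

lemma abs_sub_tt (k : ℕ) (r : ℝ) : |r - tt k r * B k| ≤ B k / 2 := by
  have h := abs_sub_round (r / B k)
  have hB := B_pos k
  have : r - tt k r * B k = (r / B k - round (r / B k)) * B k := by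
    unfold tt; field_simp
  rw [this, abs_mul, abs_of_pos hB]
  nlinarith

lemma abs_sub_tt_le (k : ℕ) (r : ℝ) (n : ℤ) : |r - tt k r * B k| ≤ |r - n * B k| := by
  have h := round_le (r / B k) n
  have hB := B_pos k
  have h1 : r - tt k r * B k = (r / B k - round (r / B k)) * B k := by
    unfold tt; field_simp
  have h2 : r - n * B k = (r / B k - n) * B k := by field_simp
  rw [h1, h2, abs_mul, abs_mul]
  gcongr

lemma abs_tt_le (k : ℕ) (r : ℝ) (n : ℕ) (h : |r| ≤ n * B k) : |tt k r| ≤ n := by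
  have hB := B_pos k
  have h1 : |r / B k| ≤ n := by
    rw [abs_div, abs_of_pos hB, div_le_iff₀ hB]; exact h
  have h2 := abs_le.1 h1
  unfold tt
  rw [abs_le]
  constructor
  · rw [show (-(n : ℤ)) = round (-(n : ℝ)) by
      rw [show (-(n : ℝ)) = ((-(n : ℤ) : ℤ) : ℝ) by push_cast; ring, round_intCast]]
    exact rnd_mono h2.1
  · rw [show ((n : ℤ)) = round ((n : ℝ)) by simp]
    exact rnd_mono h2.2

lemma exists_qq (k : ℕ) (r : ℝ) : ∃ q : ℤ, |tt k r| ≤ 2 * M k →
    (|tt k r| + |q| ≤ 2 * M k ∧ (2 : ℤ) ∣ (tt k r + q) ∧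
      |r - tt k r * B k - q * e k| ≤ max 1 (|(tt k r : ℝ)|) * e k ∧
      (|r - tt k r * B k| ≤ (2 * M k - |(tt k r : ℝ)|) * e k →
        |r - tt k r * B k - q * e k| ≤ e k)) := by
  by_cases h : |tt k r| ≤ 2 * M k
  · have he := e_pos k
    have hu : |(r - tt k r * B k) / e k| ≤ 2 * M k := by
      rw [abs_div, abs_of_pos he, div_le_iff₀ he]
      have := abs_sub_tt k r
      rw [B_eq k] at this ⊢
      linarith
    obtain ⟨q, h1, h2, h3, h4⟩ := exists_q (M k) (tt k r) ((r - tt k r * B k) / e k) h hu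
    have heq : r - tt k r * B k - q * e k = ((r - tt k r * B k) / e k - q) * e k := by
      field_simp
    refine ⟨q, fun _ => ⟨h1, h2, ?_, ?_⟩⟩
    · rw [heq, abs_mul, abs_of_pos he]
      gcongr
    · intro h5
      have h6 : |(r - tt k r * B k) / e k| ≤ 2 * M k - |(tt k r : ℝ)| := by
        rw [abs_div, abs_of_pos he, div_le_iff₀ he]; exact h5
      rw [heq, abs_mul, abs_of_pos he]
      have := h4 h6
      nlinarith
  · exact ⟨0, fun h' => absurd h' h⟩

/-- the fine digit -/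
noncomputable def qq (k : ℕ) (r : ℝ) : ℤ := (exists_qq k r).choose

/-- the horizontal digit -/
noncomputable def cc (k : ℕ) (R r : ℝ) : ℤ := round ((R - tt k r * (1 / 2) ^ k) * 2 ^ k)

/-- the residuals -/
noncomputable def res (p : ℝ × ℝ) : ℕ → ℝ × ℝ
  | 0 => p
  | k + 1 => ((res p k).1 - tt k (res p k).2 * (1 / 2) ^ k
      - cc k (res p k).1 (res p k).2 * (1 / 2) ^ k,
      (res p k).2 - tt k (res p k).2 * B k - qq k (res p k).2 * e k)

/-- good stages -/
def Good (k : ℕ) (y : ℝ) : Prop := ∃ n : ℤ, |y - n * B k| ≤ (2 * M k - 2 ^ k) * e k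

section

variable (p : ℝ × ℝ)

/-- coarse digits of `p` -/
noncomputable def tseq (k : ℕ) : ℤ := tt k (res p k).2
/-- fine digits of `p` -/
noncomputable def qseq (k : ℕ) : ℤ := qq k (res p k).2
/-- horizontal digits of `p` -/
noncomputable def cseq (k : ℕ) : ℤ := cc k (res p k).1 (res p k).2

lemma res_succ (k : ℕ) : res p (k + 1) = ((res p k).1 - tseq p k * (1 / 2) ^ k
      - cseq p k * (1 / 2) ^ k,
      (res p k).2 - tseq p k * B k - qseq p k * e k) := rfl

lemma res_snd_mod (k : ℕ) : ∃ n : ℤ, (res p k).2 = p.2 - n * B k := by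
  induction k with
  | zero => exact ⟨0, by simp [res]⟩
  | succ k ih =>
    obtain ⟨n, hn⟩ := ih
    refine ⟨8 * M k * (n + tseq p k) + 2 * qseq p k, ?_⟩
    rw [res_succ]
    simp only
    rw [hn]
    push_cast
    have h1 := B_succ k
    have h2 := e_eq k
    rw [h2, ← h1]
    ring

variable {p}

lemma inv_step (k : ℕ) (h : |tseq p k| ≤ 2 ^ k) :
    (|tseq p k| + |qseq p k| ≤ 2 * M k ∧ (2 : ℤ) ∣ (tseq p k + qseq p k) ∧
      |(res p (k + 1)).2| ≤ max 1 (|(tseq p k : ℝ)|) * e k ∧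
      (Good k p.2 → |(res p (k + 1)).2| ≤ e k)) := by
  have hM : |tt k (res p k).2| ≤ 2 * M k := by
    have h1 : ((2 ^ (k + 1) : ℕ) : ℤ) ≤ M k := by exact_mod_cast two_pow_le_M k
    push_cast at h1
    have h2 : (2 : ℤ) ^ k ≤ 2 ^ (k + 1) := pow_le_pow_right₀ (by norm_num) (by omega)
    have h3 : (0 : ℤ) ≤ M k := by positivity
    unfold tseq at h
    linarith
  obtain ⟨h1, h2, h3, h4⟩ := (exists_qq k (res p k).2).choose_spec hM
  refine ⟨h1, h2, h3, ?_⟩
  rintro ⟨n, hn⟩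
  apply h4
  obtain ⟨n', hn'⟩ := res_snd_mod p k
  have h5 := abs_sub_tt_le k (res p k).2 (n - n')
  have h6 : (res p k).2 - ((n - n' : ℤ) : ℝ) * B k = p.2 - n * B k := by
    rw [hn']; push_cast; ring
  rw [h6] at h5
  refine h5.trans (hn.trans ?_)
  have h7 : |(tt k (res p k).2 : ℝ)| ≤ 2 ^ k := by exact_mod_cast h
  have h8 := (e_pos k).le
  gcongr

lemma tseq_bound (hp : |p.2| ≤ 1 / 2) (k : ℕ) : |tseq p k| ≤ 2 ^ k := by
  induction k with
  | zero =>
    have : |tt 0 (res p 0).2| ≤ (1 : ℕ) := by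
      apply abs_tt_le
      rw [B_zero]
      simp only [res]
      norm_num
      linarith
    simpa [tseq] using this
  | succ k ih =>
    obtain ⟨-, -, h3, -⟩ := inv_step k ih
    have h4 : max 1 (|(tseq p k : ℝ)|) ≤ 2 ^ k := by
      apply max_le (one_le_pow₀ (by norm_num))
      exact_mod_cast ih
    have h5 : |(res p (k + 1)).2| ≤ ((2 ^ (k + 1) : ℕ) : ℝ) * B (k + 1) := by
      have := (e_pos k).le
      calc |(res p (k + 1)).2| ≤ max 1 (|(tseq p k : ℝ)|) * e k := h3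
        _ ≤ 2 ^ k * e k := by gcongr
        _ = ((2 ^ (k + 1) : ℕ) : ℝ) * B (k + 1) := by
            rw [e_eq]; push_cast; ring
    have := abs_tt_le (k + 1) (res p (k + 1)).2 _ h5
    unfold tseq
    exact_mod_cast this

lemma tseq_succ_le (hp : |p.2| ≤ 1 / 2) (k : ℕ) (n : ℕ) (hn : 1 ≤ n) (h : |tseq p k| ≤ n) :
    |tseq p (k + 1)| ≤ 2 * n := by
  obtain ⟨-, -, h3, -⟩ := inv_step k (tseq_bound hp k)
  have h4 : max 1 (|(tseq p k : ℝ)|) ≤ n := by
    apply max_le (by exact_mod_cast hn)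
    exact_mod_cast h
  have h5 : |(res p (k + 1)).2| ≤ ((2 * n : ℕ) : ℝ) * B (k + 1) := by
    have := (e_pos k).le
    calc |(res p (k + 1)).2| ≤ max 1 (|(tseq p k : ℝ)|) * e k := h3
      _ ≤ n * e k := by gcongr
      _ = ((2 * n : ℕ) : ℝ) * B (k + 1) := by
          rw [e_eq]; push_cast; ring
  have := abs_tt_le (k + 1) (res p (k + 1)).2 _ h5
  unfold tseq
  exact_mod_cast this

lemma tseq_succ_good (hp : |p.2| ≤ 1 / 2) (k : ℕ) (hg : Good k p.2) :
    |tseq p (k + 1)| ≤ 2 := by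
  obtain ⟨-, -, -, h4⟩ := inv_step k (tseq_bound hp k)
  have h5 : |(res p (k + 1)).2| ≤ ((2 : ℕ) : ℝ) * B (k + 1) := by
    refine (h4 hg).trans (le_of_eq ?_)
    rw [e_eq]; push_cast; ring
  have := abs_tt_le (k + 1) (res p (k + 1)).2 _ h5
  unfold tseq
  exact_mod_cast this

lemma tseq_after_good (hp : |p.2| ≤ 1 / 2) (K : ℕ) (hg : Good K p.2) (j : ℕ) :
    |tseq p (K + 1 + j)| ≤ 2 ^ (j + 1) := by
  induction j with
  | zero => simpa using tseq_succ_good hp K hg
  | succ j ih =>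
    have := tseq_succ_le hp (K + 1 + j) (2 ^ (j + 1)) Nat.one_le_two_pow (by exact_mod_cast ih)
    rw [← add_assoc]
    push_cast at this
    calc |tseq p (K + 1 + j + 1)| ≤ 2 * 2 ^ (j + 1) := this
      _ = 2 ^ (j + 1 + 1) := by ring

lemma tendsto_tseq (hp : |p.2| ≤ 1 / 2) (hg : ∀ K, ∃ k, K ≤ k ∧ Good k p.2) :
    Tendsto (fun k => (tseq p k : ℝ) * (1 / 2) ^ k) atTop (𝓝 0) := by
  rw [Metric.tendsto_atTop]
  intro ε hε
  obtain ⟨N, hN⟩ := exists_pow_lt_of_lt_one hε (show (1 / 2 : ℝ) < 1 by norm_num)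
  obtain ⟨K, hK1, hK2⟩ := hg N
  refine ⟨K + 1, fun k hk => ?_⟩
  obtain ⟨j, rfl⟩ := Nat.exists_eq_add_of_le hk
  have h1 := tseq_after_good hp K hK2 j
  have h2 : |(tseq p (K + 1 + j) : ℝ)| ≤ 2 ^ (j + 1) := by exact_mod_cast h1
  rw [dist_zero_right, Real.norm_eq_abs, abs_mul, abs_of_pos (show (0 : ℝ) < (1 / 2) ^ (K + 1 + j)
    by positivity)]
  calc |(tseq p (K + 1 + j) : ℝ)| * (1 / 2) ^ (K + 1 + j)
      ≤ 2 ^ (j + 1) * (1 / 2) ^ (K + 1 + j) := by gcongr
    _ = (2 ^ (j + 1) * (1 / 2) ^ (j + 1)) * (1 / 2) ^ K := by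
        rw [show K + 1 + j = (j + 1) + K by ring, pow_add (1 / 2 : ℝ) (j + 1) K, mul_assoc]
    _ = (1 / 2) ^ K := by rw [← mul_pow]; norm_num
    _ ≤ (1 / 2) ^ N := pow_le_pow_of_le_one (by norm_num) (by norm_num) hK1
    _ < ε := hN

lemma res_fst_succ (k : ℕ) : |(res p (k + 1)).1| ≤ (1 / 2) ^ (k + 1) := by
  rw [res_succ]
  simp only
  unfold cseq cc
  set a := (res p k).1 - tseq p k * (1 / 2) ^ k with ha
  have ha' : (res p k).1 - tt k (res p k).2 * (1 / 2) ^ k = a := rfl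
  rw [ha']
  have h1 := abs_sub_round (a * 2 ^ k)
  have h2 : (2 : ℝ) ^ k * (1 / 2) ^ k = 1 := by rw [← mul_pow]; norm_num
  have h3 : a - (round (a * 2 ^ k) : ℝ) * (1 / 2) ^ k =
      (a * 2 ^ k - round (a * 2 ^ k)) * (1 / 2) ^ k := by
    rw [sub_mul (a * 2 ^ k), mul_assoc a, h2, mul_one]
  rw [h3, abs_mul, abs_of_pos (show (0 : ℝ) < (1 / 2) ^ k by positivity), pow_succ]
  rw [mul_comm ((1 / 2 : ℝ) ^ k)]
  gcongr

lemma res_fst_le (hp : |p.1| ≤ 1) (k : ℕ) : |(res p k).1| ≤ (1 / 2) ^ k := by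
  cases k with
  | zero => simpa [res] using hp
  | succ k => exact res_fst_succ k

lemma cseq_le (hp : |p.1| ≤ 1) (k : ℕ) : |cseq p k| ≤ |tseq p k| + 1 := by
  unfold cseq cc
  have h0 := res_fst_le hp k
  have h2 : (2 : ℝ) ^ k * (1 / 2) ^ k = 1 := by rw [← mul_pow]; norm_num
  have h1 : |((res p k).1 - tt k (res p k).2 * (1 / 2) ^ k) * 2 ^ k| ≤
      ((|tseq p k| + 1 : ℤ) : ℝ) := by
    have h3 : ((res p k).1 - tt k (res p k).2 * (1 / 2) ^ k) * 2 ^ k =
        (res p k).1 * 2 ^ k - tseq p k := by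
      rw [sub_mul, mul_assoc (tt k (res p k).2 : ℝ), mul_comm ((1 / 2 : ℝ) ^ k), h2, mul_one]
      rfl
    rw [h3]
    calc |(res p k).1 * 2 ^ k - tseq p k| ≤ |(res p k).1 * 2 ^ k| + |(tseq p k : ℝ)| := abs_sub _ _
      _ = |(res p k).1| * 2 ^ k + |(tseq p k : ℝ)| := by
          rw [abs_mul, abs_of_pos (show (0 : ℝ) < 2 ^ k by positivity)]
      _ ≤ (1 / 2) ^ k * 2 ^ k + |(tseq p k : ℝ)| := by gcongr
      _ = ((|tseq p k| + 1 : ℤ) : ℝ) := by
          rw [mul_comm ((1 / 2 : ℝ) ^ k), h2]; push_cast; ring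
  have h4 := abs_le.1 h1
  rw [abs_le]
  constructor
  · rw [← round_intCast (α := ℝ) (-(|tseq p k| + 1))]
    apply rnd_mono
    push_cast at h4 ⊢
    linarith [h4.1]
  · rw [← round_intCast (α := ℝ) (|tseq p k| + 1)]
    exact rnd_mono h4.2

end

/-- Every point `(x, y)` with `|x| ≤ 1`, `|y| ≤ 1 / 2` for which infinitely many stages are good
can be expanded with costs tending to zero. -/
theorem reached (p : ℝ × ℝ) (h1 : |p.1| ≤ 1) (h2 : |p.2| ≤ 1 / 2)
    (hg : ∀ K, ∃ k, K ≤ k ∧ Good k p.2) :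
    ∃ t q c : ℕ → ℤ, (∀ k, |t k| + |q k| ≤ 2 * M k) ∧ (∀ k, (2 : ℤ) ∣ t k + q k) ∧
      (∀ k, |c k| ≤ M k) ∧
      Tendsto (fun k => (t k : ℝ) * (1 / 2) ^ k) atTop (𝓝 0) ∧
      Tendsto (fun k => (c k : ℝ) * (1 / 2) ^ k) atTop (𝓝 0) ∧
      Tendsto (fun k => ∑ j ∈ Finset.range k, ((t j : ℝ) + c j) * (1 / 2) ^ j) atTop (𝓝 p.1) ∧
      Tendsto (Y t q) atTop (𝓝 p.2) := by
  refine ⟨tseq p, qseq p, cseq p, fun k => (inv_step k (tseq_bound h2 k)).1,
    fun k => (inv_step k (tseq_bound h2 k)).2.1, fun k => ?_, tendsto_tseq h2 hg, ?_, ?_, ?_⟩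
  · have h3 := cseq_le h1 k
    have h4 := tseq_bound h2 k
    have h5 : ((2 ^ (k + 1) : ℕ) : ℤ) ≤ M k := by exact_mod_cast two_pow_le_M k
    push_cast at h5
    have h6 : (1 : ℤ) ≤ 2 ^ k := one_le_pow₀ (by norm_num)
    rw [pow_succ] at h5
    linarith
  · have h3 := tendsto_tseq h2 hg
    have h4 : Tendsto (fun k => |(tseq p k : ℝ) * (1 / 2) ^ k| + (1 / 2 : ℝ) ^ k) atTop
        (𝓝 (|0| + 0)) :=
      h3.abs.add (tendsto_pow_atTop_nhds_zero_of_lt_one (by norm_num) (by norm_num))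
    rw [abs_zero, add_zero] at h4
    apply squeeze_zero_norm _ h4
    intro k
    rw [Real.norm_eq_abs, abs_mul, abs_mul, abs_of_pos (show (0 : ℝ) < (1 / 2) ^ k by positivity)]
    have h5 : |(cseq p k : ℝ)| ≤ |(tseq p k : ℝ)| + 1 := by exact_mod_cast cseq_le h1 k
    calc |(cseq p k : ℝ)| * (1 / 2) ^ k ≤ (|(tseq p k : ℝ)| + 1) * (1 / 2) ^ k := by gcongr
      _ = _ := by ring
  · have h3 : ∀ k, ∑ j ∈ Finset.range k, ((tseq p j : ℝ) + cseq p j) * (1 / 2) ^ j
        = p.1 - (res p k).1 := by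
      intro k
      induction k with
      | zero => simp [res]
      | succ k ih =>
        rw [Finset.sum_range_succ, ih, res_succ]
        simp only
        ring
    simp_rw [h3]
    have h4 : Tendsto (fun k => (res p k).1) atTop (𝓝 0) := by
      apply squeeze_zero_norm (a := fun k => (1 / 2 : ℝ) ^ k)
      · intro k
        rw [Real.norm_eq_abs]
        exact res_fst_le h1 k
      · exact tendsto_pow_atTop_nhds_zero_of_lt_one (by norm_num) (by norm_num)
    simpa using tendsto_const_nhds.sub h4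
  · have h3 : ∀ k, Y (tseq p) (qseq p) k = p.2 - (res p k).2 := by
      intro k
      unfold Y
      induction k with
      | zero => simp [res]
      | succ k ih =>
        rw [Finset.sum_range_succ, ih, res_succ]
        simp only
        ring
    have h4 : Tendsto (fun k => (res p k).2) atTop (𝓝 0) := by
      rw [← tendsto_add_atTop_iff_nat 1]
      apply squeeze_zero_norm (a := fun k => B k ^ 2 / 8 * 2)
      · intro k
        rw [Real.norm_eq_abs]
        obtain ⟨-, -, h5, -⟩ := inv_step (p := p) k (tseq_bound h2 k)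
        have h6 : max 1 (|(tseq p k : ℝ)|) ≤ 2 ^ k := by
          apply max_le (one_le_pow₀ (by norm_num))
          exact_mod_cast tseq_bound h2 k
        have := (e_pos k).le
        calc |(res p (k + 1)).2| ≤ max 1 (|(tseq p k : ℝ)|) * e k := h5
          _ ≤ 2 ^ k * e k := by gcongr
          _ = 2 ^ (k + 1) * B (k + 1) := by rw [e_eq]; ring
          _ = B k ^ 2 / 8 := pow_mul_B_succ k
          _ ≤ B k ^ 2 / 8 * 2 := by nlinarith [sq_nonneg (B k)]
      · have := ((tendsto_B.pow 2).div_const 8).mul_const 2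
        simpa using this
    have h5 : Y (tseq p) (qseq p) = fun k => p.2 - (res p k).2 := funext h3
    rw [h5]
    simpa using tendsto_const_nhds.sub h4

end Pool.Agent.Lib.MP_160bbb_an_Achieve
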