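import Pool.Agent.Lib.MP_160bbb_an_Achieve.Part3
import Pool.Agent.Lib.MP_160bbb_an_Achieve.Defs

/-!
# The series

The terms come in groups of four: `P g, -P g, Q g, -Q g`. Block `k` consists of `2 * M k` groups; in
the first `M k` of them `P g = V k` and `Q g = W k`, in the last `M k` of them `P g = Q g = H k`.
-/

open Filter Topology

namespace Pool.Agent.Lib.MP_160bbb_an_Achieve

/-- first group of block `k` -/
def st : ℕ → ℕ
  | 0 => 0
  | k + 1 => st k + 2 * M k

lemma st_succ (k : ℕ) : st (k + 1) = st k + 2 * M k := rfl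

lemma st_strictMono : StrictMono st :=
  strictMono_nat_of_lt_succ fun k => by rw [st_succ]; have := M_pos k; omega

lemma exists_blk (g : ℕ) : ∃ k, g < st (k + 1) :=
  ⟨g, lt_of_lt_of_le (Nat.lt_succ_self g) (st_strictMono.le_apply)⟩

/-- the block containing group `g` -/
noncomputable def blk (g : ℕ) : ℕ := by classical exact Nat.find (exists_blk g)

lemma lt_st_blk (g : ℕ) : g < st (blk g + 1) := by
  classical
  unfold blk
  exact Nat.find_spec (exists_blk g)

lemma st_blk_le (g : ℕ) : st (blk g) ≤ g := by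
  classical
  rcases Nat.eq_zero_or_pos (blk g) with h | h
  · rw [h]; exact Nat.zero_le _
  · have h2 : ¬ (g < st ((blk g - 1) + 1)) := by
      have : blk g - 1 < Nat.find (exists_blk g) := by unfold blk at *; omega
      exact Nat.find_min (exists_blk g) this
    rw [Nat.sub_add_cancel h] at h2
    omega

lemma blk_eq {g k : ℕ} (h1 : st k ≤ g) (h2 : g < st (k + 1)) : blk g = k := by
  have h3 := lt_st_blk g
  have h4 := st_blk_le g
  have h5 : k < blk g + 1 := st_strictMono.lt_iff_lt.1 (lt_of_le_of_lt h1 h3)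
  have h6 : blk g < k + 1 := st_strictMono.lt_iff_lt.1 (lt_of_le_of_lt h4 h2)
  omega

lemma blk_add {k i : ℕ} (h : i < 2 * M k) : blk (st k + i) = k :=
  blk_eq (Nat.le_add_right _ _) (by rw [st_succ]; omega)

lemma tendsto_blk : Tendsto blk atTop atTop := by
  rw [tendsto_atTop]
  intro k
  rw [eventually_atTop]
  refine ⟨st k, fun g hg => ?_⟩
  have h3 := lt_st_blk g
  have : k < blk g + 1 := st_strictMono.lt_iff_lt.1 (lt_of_le_of_lt hg h3)
  omega

/-- a nearly horizontal vector -/
noncomputable def V (k : ℕ) : ℝ × ℝ := ((1 / 2) ^ k, B k + e k)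
/-- a nearly opposite vector -/
noncomputable def W (k : ℕ) : ℝ × ℝ := (-(1 / 2) ^ k, -B k + e k)
/-- a horizontal vector -/
noncomputable def H (k : ℕ) : ℝ × ℝ := ((1 / 2) ^ k, 0)

/-- first vector of the group -/
noncomputable def P (g : ℕ) : ℝ × ℝ := if g < st (blk g) + M (blk g) then V (blk g) else H (blk g)
/-- second vector of the group -/
noncomputable def Q (g : ℕ) : ℝ × ℝ := if g < st (blk g) + M (blk g) then W (blk g) else H (blk g)

lemma P_eq {k i : ℕ} (h : i < M k) : P (st k + i) = V k := by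
  unfold P
  rw [blk_add (by omega), if_pos (by omega)]

lemma Q_eq {k i : ℕ} (h : i < M k) : Q (st k + i) = W k := by
  unfold Q
  rw [blk_add (by omega), if_pos (by omega)]

lemma P_eq' {k i : ℕ} (h : i < M k) : P (st k + M k + i) = H k := by
  unfold P
  rw [add_assoc, blk_add (by omega), if_neg (by omega)]

lemma Q_eq' {k i : ℕ} (h : i < M k) : Q (st k + M k + i) = H k := by
  unfold Q
  rw [add_assoc, blk_add (by omega), if_neg (by omega)]

/-- the terms of the series -/
noncomputable def xs (n : ℕ) : ℝ × ℝ :=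
  if n % 4 = 0 then P (n / 4) else if n % 4 = 1 then -P (n / 4) else
    if n % 4 = 2 then Q (n / 4) else -Q (n / 4)

lemma xs_zero (g : ℕ) : xs (4 * g) = P g := by
  unfold xs
  rw [if_pos (by omega), show 4 * g / 4 = g by omega]

lemma xs_one (g : ℕ) : xs (4 * g + 1) = -P g := by
  unfold xs
  rw [if_neg (by omega), if_pos (by omega), show (4 * g + 1) / 4 = g by omega]

lemma xs_two (g : ℕ) : xs (4 * g + 2) = Q g := by
  unfold xs
  rw [if_neg (by omega), if_neg (by omega), if_pos (by omega), show (4 * g + 2) / 4 = g by omega]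

lemma xs_three (g : ℕ) : xs (4 * g + 3) = -Q g := by
  unfold xs
  rw [if_neg (by omega), if_neg (by omega), if_neg (by omega), show (4 * g + 3) / 4 = g by omega]

lemma tendsto_half_pow : Tendsto (fun k : ℕ => (1 / 2 : ℝ) ^ k) atTop (𝓝 0) :=
  tendsto_pow_atTop_nhds_zero_of_lt_one (by norm_num) (by norm_num)

/-- bound for the norms of the vectors in block `k` -/
noncomputable def bd (k : ℕ) : ℝ := (1 / 2) ^ k + (B k + e k)

lemma bd_nonneg (k : ℕ) : 0 ≤ bd k := by
  have := B_pos k; have := e_pos k; unfold bd; positivity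

lemma tendsto_bd : Tendsto bd atTop (𝓝 0) := by
  have h := tendsto_half_pow.add (tendsto_B.add tendsto_e)
  rw [add_zero, add_zero] at h
  exact h

lemma norm_V_le (k : ℕ) : ‖V k‖ ≤ bd k := by
  have h1 := B_pos k; have h2 := e_pos k
  have h3 : (0 : ℝ) < (1 / 2) ^ k := by positivity
  unfold V bd
  rw [Prod.norm_def]
  apply max_le
  · rw [Real.norm_eq_abs, abs_of_pos h3]; linarith
  · rw [Real.norm_eq_abs, abs_of_pos (by linarith)]; linarith

lemma norm_W_le (k : ℕ) : ‖W k‖ ≤ bd k := by
  have h1 := B_pos k; have h2 := e_pos k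
  have h3 : (0 : ℝ) < (1 / 2) ^ k := by positivity
  unfold W bd
  rw [Prod.norm_def]
  apply max_le
  · rw [Real.norm_eq_abs, abs_neg, abs_of_pos h3]; linarith
  · rw [Real.norm_eq_abs]
    simp only
    rw [abs_le]; constructor <;> linarith

lemma norm_H_le (k : ℕ) : ‖H k‖ ≤ bd k := by
  have h1 := B_pos k; have h2 := e_pos k
  have h3 : (0 : ℝ) < (1 / 2) ^ k := by positivity
  unfold H bd
  rw [Prod.norm_def]
  apply max_le
  · rw [Real.norm_eq_abs, abs_of_pos h3]; linarith
  · simp only [norm_zero]; linarith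

lemma norm_P_le (g : ℕ) : ‖P g‖ ≤ bd (blk g) := by
  unfold P
  split_ifs
  · exact norm_V_le _
  · exact norm_H_le _

lemma norm_Q_le (g : ℕ) : ‖Q g‖ ≤ bd (blk g) := by
  unfold Q
  split_ifs
  · exact norm_W_le _
  · exact norm_H_le _

lemma norm_xs_le (n : ℕ) : ‖xs n‖ ≤ bd (blk (n / 4)) := by
  unfold xs
  split_ifs
  · exact norm_P_le _
  · rw [norm_neg]; exact norm_P_le _
  · exact norm_Q_le _
  · rw [norm_neg]; exact norm_Q_le _

lemma tendsto_div_four : Tendsto (fun n : ℕ => n / 4) atTop atTop := by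
  rw [tendsto_atTop]
  intro b
  rw [eventually_atTop]
  exact ⟨4 * b, fun n hn => by omega⟩

lemma tendsto_xs : Tendsto xs atTop (𝓝 0) :=
  squeeze_zero_norm norm_xs_le (tendsto_bd.comp (tendsto_blk.comp tendsto_div_four))

/-! ### Sums over groups -/

lemma sum_range_four {E : Type*} [AddCommMonoid E] (f : ℕ → E) (G : ℕ) :
    ∑ n ∈ Finset.range (4 * G), f n =
      ∑ g ∈ Finset.range G, (f (4 * g) + f (4 * g + 1) + f (4 * g + 2) + f (4 * g + 3)) := by
  induction G with
  | zero => simp
  | succ G ih =>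
    rw [show 4 * (G + 1) = 4 * G + 1 + 1 + 1 + 1 by ring, Finset.sum_range_succ,
      Finset.sum_range_succ, Finset.sum_range_succ, Finset.sum_range_succ, ih,
      Finset.sum_range_succ]
    simp only [add_assoc]

lemma sumsTo_of_groups (f : ℕ → ℝ × ℝ) (p : ℝ × ℝ) (hf : Tendsto f atTop (𝓝 0))
    (h : Tendsto (fun G => ∑ n ∈ Finset.range (4 * G), f n) atTop (𝓝 p)) : SumsTo f p := by
  unfold SumsTo
  have h1 : ∀ N, ∑ n ∈ Finset.range N, f n = ∑ n ∈ Finset.range (4 * (N / 4)), f n +
      ∑ i ∈ Finset.range (N % 4), f (4 * (N / 4) + i) := by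
    intro N
    conv_lhs => rw [← Nat.div_add_mod N 4]
    rw [Finset.sum_range_add]
  have h2 : Tendsto (fun N => ∑ i ∈ Finset.range (N % 4), f (4 * (N / 4) + i)) atTop (𝓝 0) := by
    have h3 : Tendsto (fun N : ℕ => ∑ i ∈ Finset.range 4, ‖f (4 * (N / 4) + i)‖) atTop (𝓝 0) := by
      have : Tendsto (fun N : ℕ => ∑ i ∈ Finset.range 4, ‖f (4 * (N / 4) + i)‖) atTop
          (𝓝 (∑ i ∈ Finset.range 4, (0 : ℝ))) := by
        apply tendsto_finsetSum
        intro i _
        have h4 : Tendsto (fun N : ℕ => 4 * (N / 4) + i) atTop atTop := by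
          rw [tendsto_atTop]
          intro b
          rw [eventually_atTop]
          exact ⟨b + 4, fun n hn => by omega⟩
        have := (hf.comp h4).norm
        simpa using this
      simpa using this
    refine squeeze_zero_norm (fun N => ?_) h3
    refine (norm_sum_le _ _).trans ?_
    apply Finset.sum_le_sum_of_subset_of_nonneg
    · intro i hi
      rw [Finset.mem_range] at hi ⊢
      omega
    · intro i _ _
      exact norm_nonneg _
  have h5 : Tendsto (fun N : ℕ => ∑ n ∈ Finset.range (4 * (N / 4)), f n) atTop (𝓝 p) :=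
    h.comp tendsto_div_four
  have h6 := h5.add h2
  rw [add_zero] at h6
  refine h6.congr (fun N => (h1 N).symm)

lemma tendsto_of_blocks (T : ℕ → ℝ × ℝ) (p : ℝ × ℝ) (δ : ℕ → ℝ)
    (h : Tendsto (fun k => T (st k)) atTop (𝓝 p)) (hδ : Tendsto δ atTop (𝓝 0))
    (hT : ∀ k j, j < 2 * M k → ‖T (st k + j) - T (st k)‖ ≤ δ k) : Tendsto T atTop (𝓝 p) := by
  have h1 : ∀ G, ‖T G - T (st (blk G))‖ ≤ δ (blk G) := by
    intro G
    obtain ⟨j, hj⟩ := Nat.exists_eq_add_of_le (st_blk_le G)
    have h2 := lt_st_blk G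
    rw [st_succ] at h2
    have := hT (blk G) j (by omega)
    rwa [← hj] at this
  have h3 : Tendsto (fun G => T G - T (st (blk G))) atTop (𝓝 0) :=
    squeeze_zero_norm h1 (hδ.comp tendsto_blk)
  have h4 := h3.add (h.comp tendsto_blk)
  rw [zero_add] at h4
  refine h4.congr (fun G => ?_)
  simp

end Pool.Agent.Lib.MP_160bbb_an_Achieve
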