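import Pool.Agent.Lib.MP_160bbb_an_Achieve.Part4

/-!
# A point outside the achievement set
-/

open Filter Topology

namespace Pool.Agent.Lib.MP_160bbb_an_Achieve

section

variable (ε : ℕ → ℝ)

/-- integer version of a coefficient -/
noncomputable def ei (n : ℕ) : ℤ := by classical exact if ε n = 1 then 1 else 0

lemma ei_cast {ε : ℕ → ℝ} (h : ∀ n, ε n = 0 ∨ ε n = 1) (n : ℕ) : ((ei ε n : ℤ) : ℝ) = ε n := by
  unfold ei
  rcases h n with h | h <;> simp [h]

lemma ei_nonneg (n : ℕ) : 0 ≤ ei ε n := by unfold ei; split_ifs <;> norm_num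
lemma ei_le (n : ℕ) : ei ε n ≤ 1 := by unfold ei; split_ifs <;> norm_num

/-- net number of copies of `V k` -/
noncomputable def anet (k : ℕ) : ℤ :=
  ∑ i ∈ Finset.range (M k), (ei ε (4 * (st k + i)) - ei ε (4 * (st k + i) + 1))

/-- net number of copies of `W k` -/
noncomputable def bnet (k : ℕ) : ℤ :=
  ∑ i ∈ Finset.range (M k), (ei ε (4 * (st k + i) + 2) - ei ε (4 * (st k + i) + 3))

/-- net number of copies of `H k` -/
noncomputable def hnet (k : ℕ) : ℤ :=
  ∑ i ∈ Finset.range (M k), (ei ε (4 * (st k + M k + i)) - ei ε (4 * (st k + M k + i) + 1)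
    + (ei ε (4 * (st k + M k + i) + 2) - ei ε (4 * (st k + M k + i) + 3)))

lemma abs_anet_le (k : ℕ) : |anet ε k| ≤ M k := by
  unfold anet
  refine (Finset.abs_sum_le_sum_abs _ _).trans ?_
  calc ∑ i ∈ Finset.range (M k), |ei ε (4 * (st k + i)) - ei ε (4 * (st k + i) + 1)|
      ≤ ∑ i ∈ Finset.range (M k), (1 : ℤ) := by
        apply Finset.sum_le_sum
        intro i _
        rw [abs_le]
        have := ei_nonneg ε (4 * (st k + i))
        have := ei_nonneg ε (4 * (st k + i) + 1)
        have := ei_le ε (4 * (st k + i))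
        have := ei_le ε (4 * (st k + i) + 1)
        constructor <;> linarith
    _ = M k := by simp

lemma abs_bnet_le (k : ℕ) : |bnet ε k| ≤ M k := by
  unfold bnet
  refine (Finset.abs_sum_le_sum_abs _ _).trans ?_
  calc ∑ i ∈ Finset.range (M k), |ei ε (4 * (st k + i) + 2) - ei ε (4 * (st k + i) + 3)|
      ≤ ∑ i ∈ Finset.range (M k), (1 : ℤ) := by
        apply Finset.sum_le_sum
        intro i _
        rw [abs_le]
        have := ei_nonneg ε (4 * (st k + i) + 2)
        have := ei_nonneg ε (4 * (st k + i) + 3)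
        have := ei_le ε (4 * (st k + i) + 2)
        have := ei_le ε (4 * (st k + i) + 3)
        constructor <;> linarith
    _ = M k := by simp

/-- group-level partial sums -/
noncomputable def T (G : ℕ) : ℝ × ℝ := ∑ n ∈ Finset.range (4 * G), ε n • xs n

lemma T_eq (G : ℕ) : T ε G = ∑ g ∈ Finset.range G,
    ((ε (4 * g) - ε (4 * g + 1)) • P g + (ε (4 * g + 2) - ε (4 * g + 3)) • Q g) := by
  unfold T
  rw [sum_range_four]
  apply Finset.sum_congr rfl
  intro g _
  rw [xs_zero, xs_one, xs_two, xs_three, sub_smul, sub_smul, smul_neg, smul_neg]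
  abel

variable {ε}

lemma T_mid (h : ∀ n, ε n = 0 ∨ ε n = 1) (k : ℕ) :
    T ε (st k + M k) = T ε (st k) + ((anet ε k : ℝ) • V k + (bnet ε k : ℝ) • W k) := by
  rw [T_eq, T_eq, Finset.sum_range_add]
  congr 1
  have h1 : ∀ i ∈ Finset.range (M k),
      ((ε (4 * (st k + i)) - ε (4 * (st k + i) + 1)) • P (st k + i) +
      (ε (4 * (st k + i) + 2) - ε (4 * (st k + i) + 3)) • Q (st k + i)) =
      ((ei ε (4 * (st k + i)) - ei ε (4 * (st k + i) + 1) : ℤ) : ℝ) • V k +
      ((ei ε (4 * (st k + i) + 2) - ei ε (4 * (st k + i) + 3) : ℤ) : ℝ) • W k := by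
    intro i hi
    rw [P_eq (Finset.mem_range.1 hi), Q_eq (Finset.mem_range.1 hi)]
    push_cast
    rw [ei_cast h, ei_cast h, ei_cast h, ei_cast h]
  rw [Finset.sum_congr rfl h1, Finset.sum_add_distrib, ← Finset.sum_smul, ← Finset.sum_smul,
    ← Int.cast_sum, ← Int.cast_sum]
  rfl

lemma T_end (h : ∀ n, ε n = 0 ∨ ε n = 1) (k : ℕ) :
    T ε (st (k + 1)) = T ε (st k + M k) + (hnet ε k : ℝ) • H k := by
  rw [st_succ, show st k + 2 * M k = st k + M k + M k by ring, T_eq, T_eq, Finset.sum_range_add]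
  congr 1
  have h1 : ∀ i ∈ Finset.range (M k),
      ((ε (4 * (st k + M k + i)) - ε (4 * (st k + M k + i) + 1)) • P (st k + M k + i) +
      (ε (4 * (st k + M k + i) + 2) - ε (4 * (st k + M k + i) + 3)) • Q (st k + M k + i)) =
      ((ei ε (4 * (st k + M k + i)) - ei ε (4 * (st k + M k + i) + 1)
    + (ei ε (4 * (st k + M k + i) + 2) - ei ε (4 * (st k + M k + i) + 3)) : ℤ) : ℝ) • H k := by
    intro i hi
    rw [P_eq' (Finset.mem_range.1 hi), Q_eq' (Finset.mem_range.1 hi)]
    push_cast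
    rw [ei_cast h, ei_cast h, ei_cast h, ei_cast h, ← add_smul]
  rw [Finset.sum_congr rfl h1, ← Finset.sum_smul, ← Int.cast_sum]
  rfl

lemma T_snd (h : ∀ n, ε n = 0 ∨ ε n = 1) (k : ℕ) :
    (T ε (st k)).2 = Y (fun k => anet ε k - bnet ε k) (fun k => anet ε k + bnet ε k) k := by
  induction k with
  | zero => simp [T, st, Y]
  | succ k ih =>
    rw [T_end h, T_mid h]
    unfold Y at ih ⊢
    rw [Finset.sum_range_succ, ← ih]
    simp only [Prod.snd_add, Prod.smul_snd, V, W, H, smul_eq_mul]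
    push_cast
    ring

end

/-- No point with second coordinate `ystar` lies in the achievement set. -/
theorem notMem_achievementSet (a : ℝ) : (a, ystar) ∉ achievementSet xs := by
  rintro ⟨ε, h, hs⟩
  have hT : Tendsto (T ε) atTop (𝓝 (a, ystar)) := by
    have h4 : Tendsto (fun G : ℕ => 4 * G) atTop atTop := by
      rw [tendsto_atTop]
      intro b
      rw [eventually_atTop]
      exact ⟨b, fun n hn => by omega⟩
    exact hs.comp h4
  have hst : Tendsto st atTop atTop := st_strictMono.tendsto_atTop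
  have h1 : Tendsto (fun k => T ε (st k)) atTop (𝓝 (a, ystar)) := hT.comp hst
  have h2 : Tendsto (fun k => T ε (st k + M k)) atTop (𝓝 (a, ystar)) :=
    hT.comp (tendsto_atTop_mono (fun k => Nat.le_add_right _ _) hst)
  have h3 := h2.sub h1
  rw [sub_self] at h3
  have h4 : Tendsto (fun k => (T ε (st k + M k) - T ε (st k)).1) atTop (𝓝 0) :=
    (continuous_fst.tendsto (0 : ℝ × ℝ)).comp h3
  refine not_reached (fun k => anet ε k - bnet ε k) (fun k => anet ε k + bnet ε k) ?_ ?_ ?_
  · intro k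
    have ha := abs_le.1 (abs_anet_le ε k)
    have hb := abs_le.1 (abs_bnet_le ε k)
    rcases abs_cases (anet ε k - bnet ε k) with ⟨h5, _⟩ | ⟨h5, _⟩ <;>
    rcases abs_cases (anet ε k + bnet ε k) with ⟨h6, _⟩ | ⟨h6, _⟩ <;>
    rw [h5, h6] <;> linarith [ha.1, ha.2, hb.1, hb.2]
  · refine h4.congr (fun k => ?_)
    rw [T_mid h]
    simp only [add_sub_cancel_left, Prod.fst_add, Prod.smul_fst, V, W, smul_eq_mul]
    push_cast
    ring
  · have h5 : Tendsto (fun k => (T ε (st k)).2) atTop (𝓝 ystar) :=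
      (continuous_snd.tendsto (a, ystar)).comp h1
    exact h5.congr (fun k => T_snd h k)

end Pool.Agent.Lib.MP_160bbb_an_Achieve
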