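import Pool.Agent.Lib.MP_160bbb_an_Achieve.Part5

/-!
# Points inside the achievement set
-/

open Filter Topology

namespace Pool.Agent.Lib.MP_160bbb_an_Achieve

/-- `a` clamped to `[-j, j]` -/
def cl (a : ℤ) (j : ℕ) : ℤ := max (-(j : ℤ)) (min (j : ℤ) a)

lemma cl_zero (a : ℤ) : cl a 0 = 0 := by unfold cl; simp

lemma cl_incr (a : ℤ) (j : ℕ) : cl a (j + 1) - cl a j = -1 ∨ cl a (j + 1) - cl a j = 0 ∨
    cl a (j + 1) - cl a j = 1 := by
  unfold cl; omega

lemma cl_self {a : ℤ} {j : ℕ} (h : |a| ≤ j) : cl a j = a := by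
  have := abs_le.1 h
  unfold cl; omega

lemma abs_cl_le (a : ℤ) (j : ℕ) : |cl a j| ≤ |a| := by
  unfold cl
  rcases abs_cases a with ⟨h, _⟩ | ⟨h, _⟩ <;>
  rcases abs_cases (max (-(j : ℤ)) (min (j : ℤ) a)) with ⟨h', _⟩ | ⟨h', _⟩ <;>
  rw [h, h'] <;> omega

lemma abs_cl_sub_le (a b : ℤ) (j : ℕ) : |cl a j - cl b j| ≤ |a - b| := by
  unfold cl
  rcases abs_cases (a - b) with ⟨h, _⟩ | ⟨h, _⟩ <;>
  rcases abs_cases (max (-(j : ℤ)) (min (j : ℤ) a) - max (-(j : ℤ)) (min (j : ℤ) b)) with
    ⟨h', _⟩ | ⟨h', _⟩ <;>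
  rw [h, h'] <;> omega

section

variable (a b c : ℕ → ℤ)

/-- signed coefficient of `P g` -/
noncomputable def sg (g : ℕ) : ℤ :=
  if g < st (blk g) + M (blk g) then
    cl (a (blk g)) (g - st (blk g) + 1) - cl (a (blk g)) (g - st (blk g))
  else cl (c (blk g)) (g - (st (blk g) + M (blk g)) + 1) -
    cl (c (blk g)) (g - (st (blk g) + M (blk g)))

/-- signed coefficient of `Q g` -/
noncomputable def tg (g : ℕ) : ℤ :=
  if g < st (blk g) + M (blk g) then
    cl (b (blk g)) (g - st (blk g) + 1) - cl (b (blk g)) (g - st (blk g))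
  else 0

lemma sg_mem (g : ℕ) : sg a c g = -1 ∨ sg a c g = 0 ∨ sg a c g = 1 := by
  unfold sg; split_ifs <;> apply cl_incr

lemma tg_mem (g : ℕ) : tg b g = -1 ∨ tg b g = 0 ∨ tg b g = 1 := by
  unfold tg; split_ifs
  · apply cl_incr
  · right; left; rfl

lemma sg_eq {k i : ℕ} (h : i < M k) : sg a c (st k + i) = cl (a k) (i + 1) - cl (a k) i := by
  unfold sg
  rw [blk_add (by omega), if_pos (by omega), Nat.add_sub_cancel_left]

lemma tg_eq {k i : ℕ} (h : i < M k) : tg b (st k + i) = cl (b k) (i + 1) - cl (b k) i := by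
  unfold tg
  rw [blk_add (by omega), if_pos (by omega), Nat.add_sub_cancel_left]

lemma sg_eq' {k i : ℕ} (h : i < M k) :
    sg a c (st k + M k + i) = cl (c k) (i + 1) - cl (c k) i := by
  unfold sg
  rw [add_assoc, blk_add (by omega), if_neg (by omega), ← add_assoc, Nat.add_sub_cancel_left]

lemma tg_eq' {k i : ℕ} (h : i < M k) : tg b (st k + M k + i) = 0 := by
  unfold tg
  rw [add_assoc, blk_add (by omega), if_neg (by omega)]

/-- the coefficients -/
noncomputable def eps (n : ℕ) : ℝ :=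
  if n % 4 = 0 then (if sg a c (n / 4) = 1 then 1 else 0) else
  if n % 4 = 1 then (if sg a c (n / 4) = -1 then 1 else 0) else
  if n % 4 = 2 then (if tg b (n / 4) = 1 then 1 else 0) else
    (if tg b (n / 4) = -1 then 1 else 0)

lemma eps_mem (n : ℕ) : eps a b c n = 0 ∨ eps a b c n = 1 := by
  unfold eps
  split_ifs <;> simp

lemma eps_zero (g : ℕ) : eps a b c (4 * g) = if sg a c g = 1 then 1 else 0 := by
  unfold eps
  rw [if_pos (by omega), show 4 * g / 4 = g by omega]

lemma eps_one (g : ℕ) : eps a b c (4 * g + 1) = if sg a c g = -1 then 1 else 0 := by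
  unfold eps
  rw [if_neg (by omega), if_pos (by omega), show (4 * g + 1) / 4 = g by omega]

lemma eps_two (g : ℕ) : eps a b c (4 * g + 2) = if tg b g = 1 then 1 else 0 := by
  unfold eps
  rw [if_neg (by omega), if_neg (by omega), if_pos (by omega), show (4 * g + 2) / 4 = g by omega]

lemma eps_three (g : ℕ) : eps a b c (4 * g + 3) = if tg b g = -1 then 1 else 0 := by
  unfold eps
  rw [if_neg (by omega), if_neg (by omega), if_neg (by omega), show (4 * g + 3) / 4 = g by omega]

lemma eps_sub (g : ℕ) : eps a b c (4 * g) - eps a b c (4 * g + 1) = sg a c g := by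
  rw [eps_zero, eps_one]
  rcases sg_mem a c g with h | h | h <;> rw [h] <;> norm_num

lemma eps_sub' (g : ℕ) : eps a b c (4 * g + 2) - eps a b c (4 * g + 3) = tg b g := by
  rw [eps_two, eps_three]
  rcases tg_mem b g with h | h | h <;> rw [h] <;> norm_num

lemma T_eps (G : ℕ) : T (eps a b c) G =
    ∑ g ∈ Finset.range G, ((sg a c g : ℝ) • P g + (tg b g : ℝ) • Q g) := by
  rw [T_eq]
  apply Finset.sum_congr rfl
  intro g _
  rw [eps_sub, eps_sub']

lemma T_first (k j : ℕ) (hj : j ≤ M k) : T (eps a b c) (st k + j) = T (eps a b c) (st k) +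
    ((cl (a k) j : ℝ) • V k + (cl (b k) j : ℝ) • W k) := by
  induction j with
  | zero => simp [cl_zero]
  | succ j ih =>
    rw [← add_assoc, T_eps, Finset.sum_range_succ, ← T_eps, ih (by omega), sg_eq a c (by omega),
      tg_eq b (by omega), P_eq (by omega), Q_eq (by omega)]
    push_cast
    rw [sub_smul, sub_smul]
    abel

lemma T_second (k j : ℕ) (hj : j ≤ M k) : T (eps a b c) (st k + M k + j) =
    T (eps a b c) (st k + M k) + (cl (c k) j : ℝ) • H k := by
  induction j with
  | zero => simp [cl_zero]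
  | succ j ih =>
    rw [← add_assoc, T_eps, Finset.sum_range_succ, ← T_eps, ih (by omega), sg_eq' a c (by omega),
      tg_eq' b (by omega), P_eq' (by omega), Q_eq' (by omega)]
    push_cast
    rw [sub_smul]
    simp only [zero_smul, add_zero]
    abel

variable {a b c}

lemma T_block (ha : ∀ k, |a k| ≤ M k) (hb : ∀ k, |b k| ≤ M k) (hc : ∀ k, |c k| ≤ M k) (k : ℕ) :
    T (eps a b c) (st (k + 1)) = T (eps a b c) (st k) +
      ((a k : ℝ) • V k + (b k : ℝ) • W k) + (c k : ℝ) • H k := by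
  rw [st_succ, show st k + 2 * M k = st k + M k + M k by ring, T_second a b c k (M k) le_rfl,
    T_first a b c k (M k) le_rfl, cl_self (ha k), cl_self (hb k), cl_self (hc k)]

lemma T_blocks (ha : ∀ k, |a k| ≤ M k) (hb : ∀ k, |b k| ≤ M k) (hc : ∀ k, |c k| ≤ M k) (k : ℕ) :
    T (eps a b c) (st k) = (∑ j ∈ Finset.range k, (((a j - b j : ℤ) : ℝ) + c j) * (1 / 2) ^ j,
      Y (fun k => a k - b k) (fun k => a k + b k) k) := by
  induction k with
  | zero => simp [T, st, Y]; rfl
  | succ k ih =>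
    rw [T_block ha hb hc, ih]
    unfold Y
    rw [Finset.sum_range_succ, Finset.sum_range_succ]
    ext
    · simp only [V, W, H, Prod.smul_mk, Prod.mk_add_mk, smul_eq_mul]
      push_cast
      ring
    · simp only [V, W, H, Prod.smul_mk, Prod.mk_add_mk, smul_eq_mul]
      push_cast
      ring

lemma norm_first_le (ha : ∀ k, |a k| ≤ M k) (hb : ∀ k, |b k| ≤ M k) (k j : ℕ) :
    ‖(cl (a k) j : ℝ) • V k + (cl (b k) j : ℝ) • W k‖ ≤
      2 * (|((a k - b k : ℤ) : ℝ)| * (1 / 2) ^ k) + B k := by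
  have h1 : |(cl (a k) j : ℝ) - cl (b k) j| ≤ |((a k - b k : ℤ) : ℝ)| := by
    exact_mod_cast abs_cl_sub_le (a k) (b k) j
  have h2 : |(cl (a k) j : ℝ) + cl (b k) j| ≤ 2 * M k := by
    have h3 : |(cl (a k) j : ℝ)| ≤ M k := by
      exact_mod_cast (abs_cl_le (a k) j).trans (ha k)
    have h4 : |(cl (b k) j : ℝ)| ≤ M k := by
      exact_mod_cast (abs_cl_le (b k) j).trans (hb k)
    refine (abs_add_le _ _).trans ?_
    linarith
  have hp : (0 : ℝ) < (1 / 2) ^ k := by positivity
  have hB := B_pos k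
  have he := e_pos k
  have hB2 : B k ≤ (1 / 2) ^ k :=
    (B_le_pow k).trans (pow_le_pow_left₀ (by norm_num) (by norm_num) k)
  have h0 : 0 ≤ |((a k - b k : ℤ) : ℝ)| := abs_nonneg _
  simp only [V, W, Prod.smul_mk, Prod.mk_add_mk, smul_eq_mul]
  rw [Prod.norm_def]
  apply max_le
  · rw [Real.norm_eq_abs]
    have : (cl (a k) j : ℝ) * (1 / 2) ^ k + (cl (b k) j : ℝ) * -(1 / 2) ^ k =
        ((cl (a k) j : ℝ) - cl (b k) j) * (1 / 2) ^ k := by ring
    simp only [this]
    rw [abs_mul, abs_of_pos hp]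
    nlinarith
  · rw [Real.norm_eq_abs]
    have : (cl (a k) j : ℝ) * (B k + e k) + (cl (b k) j : ℝ) * (-B k + e k) =
        ((cl (a k) j : ℝ) - cl (b k) j) * B k + ((cl (a k) j : ℝ) + cl (b k) j) * e k := by ring
    simp only [this]
    calc |((cl (a k) j : ℝ) - cl (b k) j) * B k + ((cl (a k) j : ℝ) + cl (b k) j) * e k|
        ≤ |((cl (a k) j : ℝ) - cl (b k) j) * B k| + |((cl (a k) j : ℝ) + cl (b k) j) * e k| :=
          abs_add_le _ _
      _ = |(cl (a k) j : ℝ) - cl (b k) j| * B k + |(cl (a k) j : ℝ) + cl (b k) j| * e k := by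
          rw [abs_mul, abs_mul, abs_of_pos hB, abs_of_pos he]
      _ ≤ |((a k - b k : ℤ) : ℝ)| * (1 / 2) ^ k + 2 * M k * e k := by gcongr
      _ ≤ _ := by
          have := B_eq k
          nlinarith

end

/-- Realisation of digit sequences. -/
theorem mem_achievementSet_of_digits (p : ℝ × ℝ) (t q c : ℕ → ℤ)
    (h1 : ∀ k, |t k| + |q k| ≤ 2 * M k) (h2 : ∀ k, (2 : ℤ) ∣ t k + q k) (h3 : ∀ k, |c k| ≤ M k)
    (h4 : Tendsto (fun k => (t k : ℝ) * (1 / 2) ^ k) atTop (𝓝 0))
    (h5 : Tendsto (fun k => (c k : ℝ) * (1 / 2) ^ k) atTop (𝓝 0))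
    (h6 : Tendsto (fun k => ∑ j ∈ Finset.range k, ((t j : ℝ) + c j) * (1 / 2) ^ j) atTop (𝓝 p.1))
    (h7 : Tendsto (Y t q) atTop (𝓝 p.2)) : p ∈ achievementSet xs := by
  choose a ha using h2
  set b : ℕ → ℤ := fun k => a k - t k with hb
  have hab : ∀ k, a k - b k = t k := fun k => by simp [hb]
  have hab' : ∀ k, a k + b k = q k := fun k => by
    have := ha k
    simp only [hb]; linarith
  have haM : ∀ k, |a k| ≤ M k := fun k => by
    have h8 := h1 k
    have h9 := ha k
    have h10 : |2 * a k| ≤ |t k| + |q k| := by rw [← h9]; exact abs_add_le _ _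
    rw [abs_mul] at h10
    norm_num at h10
    linarith
  have hbM : ∀ k, |b k| ≤ M k := fun k => by
    have h8 := h1 k
    have h9 := ha k
    have h10 : |2 * b k| ≤ |q k| + |t k| := by
      have : 2 * b k = q k - t k := by simp only [hb]; linarith
      rw [this]; exact abs_sub _ _
    rw [abs_mul] at h10
    norm_num at h10
    linarith
  refine ⟨eps a b c, eps_mem a b c, ?_⟩
  apply sumsTo_of_groups
  · refine squeeze_zero_norm (fun n => ?_) (tendsto_norm_zero.comp tendsto_xs)
    rw [norm_smul]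
    have : ‖eps a b c n‖ ≤ 1 := by
      rcases eps_mem a b c n with h | h <;> rw [h] <;> simp
    simp only [Function.comp]
    nlinarith [norm_nonneg (xs n)]
  · change Tendsto (T (eps a b c)) atTop (𝓝 p)
    have hst : Tendsto (fun k => T (eps a b c) (st k)) atTop (𝓝 p) := by
      have h8 : (fun k => T (eps a b c) (st k)) = fun k =>
          (∑ j ∈ Finset.range k, ((t j : ℝ) + c j) * (1 / 2) ^ j, Y t q k) := by
        funext k
        rw [T_blocks haM hbM h3]
        simp only [hab, hab']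
      rw [h8]
      exact (h6.prodMk_nhds h7)
    refine tendsto_of_blocks _ _
      (fun k => 2 * (|(t k : ℝ)| * (1 / 2) ^ k) + B k + |(c k : ℝ)| * (1 / 2) ^ k) hst ?_ ?_
    · have h8 : Tendsto (fun k => 2 * |(t k : ℝ) * (1 / 2) ^ k| + B k +
          |(c k : ℝ) * (1 / 2) ^ k|) atTop (𝓝 (2 * |0| + 0 + |0|)) :=
        ((h4.abs.const_mul 2).add tendsto_B).add h5.abs
      rw [abs_zero, mul_zero, add_zero, add_zero] at h8
      refine h8.congr (fun k => ?_)
      rw [abs_mul, abs_mul, abs_of_pos (show (0 : ℝ) < (1 / 2) ^ k by positivity)]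
    · intro k j hj
      have hc0 : 0 ≤ |(c k : ℝ)| * (1 / 2) ^ k := by positivity
      rcases le_or_gt j (M k) with h | h
      · rw [T_first a b c k j h, add_sub_cancel_left]
        have := norm_first_le haM hbM k j
        rw [hab] at this
        linarith
      · obtain ⟨i, rfl⟩ := Nat.exists_eq_add_of_le h.le
        rw [← add_assoc, T_second a b c k i (by omega), T_first a b c k (M k) le_rfl,
          add_assoc, add_sub_cancel_left]
        have h9 := norm_first_le haM hbM k (M k)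
        rw [hab] at h9
        have h10 : ‖(cl (c k) i : ℝ) • H k‖ ≤ |(c k : ℝ)| * (1 / 2) ^ k := by
          rw [norm_smul, Real.norm_eq_abs]
          have h11 : ‖H k‖ = (1 / 2) ^ k := by
            unfold H
            rw [Prod.norm_def]
            simp only [norm_zero, Real.norm_eq_abs]
            rw [abs_of_pos (show (0 : ℝ) < (1 / 2) ^ k by positivity)]
            exact max_eq_left (by positivity)
          rw [h11]
          have h12 : |(cl (c k) i : ℝ)| ≤ |(c k : ℝ)| := by exact_mod_cast abs_cl_le (c k) i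
          gcongr
        refine (norm_add_le _ _).trans ?_
        linarith

/-- Points all of whose tails contain a good stage are in the achievement set. -/
theorem mem_achievementSet (p : ℝ × ℝ) (h1 : |p.1| ≤ 1) (h2 : |p.2| ≤ 1 / 2)
    (hg : ∀ K, ∃ k, K ≤ k ∧ Good k p.2) : p ∈ achievementSet xs := by
  obtain ⟨t, q, c, H1, H2, H3, H4, H5, H6, H7⟩ := reached p h1 h2 hg
  exact mem_achievementSet_of_digits p t q c H1 H2 H3 H4 H5 H6 H7

end Pool.Agent.Lib.MP_160bbb_an_Achieve
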