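import Pool.Agent.Lib.MP_160bbb_an_Achieve.Part4
import Pool.Agent.Lib.MP_160bbb_an_Achieve.Part1

/-!
# The sum range is the whole plane
-/

open Filter Topology

namespace Pool.Agent.Lib.MP_160bbb_an_Achieve

lemma le_bexp (k : ℕ) : k ≤ bexp k + 0 := by
  induction k with
  | zero => simp
  | succ k ih => rw [bexp]; omega

lemma xs_P {s : ℕ} (hs : s ≤ 1) (g : ℕ) : xs (4 * g + s) = (1 - 2 * (s : ℝ)) • P g := by
  interval_cases s
  · rw [add_zero, xs_zero]; simp
  · rw [xs_one]
    norm_num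

lemma xs_P' {s : ℕ} (hs : s ≤ 1) (g : ℕ) : xs (4 * g + (1 - s)) = -((1 - 2 * (s : ℝ)) • P g) := by
  interval_cases s
  · simp only [Nat.sub_zero]
    rw [xs_one]
    simp
  · simp only [Nat.sub_self, add_zero]
    rw [xs_zero]
    norm_num

lemma xs_Q {s : ℕ} (hs : s ≤ 1) (g : ℕ) : xs (4 * g + 2 + s) = (1 - 2 * (s : ℝ)) • Q g := by
  interval_cases s
  · rw [add_zero, xs_two]; simp
  · rw [show 4 * g + 2 + 1 = 4 * g + 3 by ring, xs_three]
    norm_num

/-- a list of unused indices all of whose initial segments have small sums -/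
def OK (F : Finset ℕ) (C : ℝ) (L : List ℕ) : Prop :=
  L.Nodup ∧ (∀ i ∈ L, i ∉ F) ∧ ∀ L', L' <+: L → ‖(L'.map xs).sum‖ ≤ C

lemma OK.append {F : Finset ℕ} {C : ℝ} {L : List ℕ} (h : OK F C L) {i : ℕ} (h1 : i ∉ L)
    (h2 : i ∉ F) (h3 : ‖(L.map xs).sum + xs i‖ ≤ C) : OK F C (L ++ [i]) := by
  obtain ⟨ha, hb, hc⟩ := h
  refine ⟨?_, ?_, ?_⟩
  · rw [List.nodup_append]
    refine ⟨ha, List.nodup_singleton i, ?_⟩
    intro a ha' b hb' hab
    rw [List.mem_singleton] at hb'
    subst hb'
    subst hab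
    exact h1 ha'
  · intro j hj
    rw [List.mem_append, List.mem_singleton] at hj
    rcases hj with hj | rfl
    · exact hb j hj
    · exact h2
  · intro L' hL'
    rw [List.prefix_concat_iff] at hL'
    rcases hL' with rfl | hL'
    · simpa using h3
    · exact hc L' hL'

/-- first list -/
def L1 (k s : ℕ) : ℕ → List ℕ
  | 0 => []
  | n + 1 => (L1 k s n ++ [4 * (st k + n) + s]) ++ [4 * (st k + M k + n) + (1 - s)]

lemma mem_L1 {k s n j : ℕ} (h : j ∈ L1 k s n) : ∃ a < n, j = 4 * (st k + a) + s ∨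
    j = 4 * (st k + M k + a) + (1 - s) := by
  induction n with
  | zero => simp [L1] at h
  | succ n ih =>
    rw [L1, List.mem_append, List.mem_append, List.mem_singleton, List.mem_singleton] at h
    rcases h with (h | h) | h
    · obtain ⟨a, ha, h⟩ := ih h
      exact ⟨a, by omega, h⟩
    · exact ⟨n, by omega, Or.inl h⟩
    · exact ⟨n, by omega, Or.inr h⟩

lemma sum_L1 {k s : ℕ} (hs : s ≤ 1) (n : ℕ) (hn : n ≤ M k) :
    ((L1 k s n).map xs).sum = (1 - 2 * (s : ℝ)) • ((0, n * (B k + e k)) : ℝ × ℝ) := by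
  induction n with
  | zero => simp [L1]; rfl
  | succ n ih =>
    rw [L1, List.map_append, List.map_append, List.sum_append, List.sum_append, ih (by omega)]
    simp only [List.map_cons, List.map_nil, List.sum_cons, List.sum_nil, add_zero]
    rw [xs_P hs, xs_P' hs, P_eq (by omega), P_eq' (by omega)]
    unfold V H
    ext
    · simp
    · simp only [Prod.smul_mk, smul_eq_mul, Prod.mk_add_mk, Prod.neg_mk]
      push_cast
      ring

lemma sign_abs {s : ℕ} (hs : s ≤ 1) : |1 - 2 * (s : ℝ)| = 1 := by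
  interval_cases s <;> norm_num

lemma OK_L1 {F : Finset ℕ} {C : ℝ} {k s : ℕ} (hs : s ≤ 1) (hF : ∀ i ∈ F, i < 4 * st k) (w : ℝ)
    (hw : w + (B k + e k) ≤ C) (hw' : (1 / 2) ^ k ≤ C) (n : ℕ) (hn : n ≤ M k)
    (hn' : n * (B k + e k) ≤ w) : OK F C (L1 k s n) := by
  have hB := B_pos k
  have he := e_pos k
  have hp : (0 : ℝ) < (1 / 2) ^ k := by positivity
  have hC : 0 ≤ C := hp.le.trans hw'
  induction n with
  | zero =>
    refine ⟨List.nodup_nil, by simp [L1], ?_⟩
    intro L' hL'
    simp only [L1, List.prefix_nil] at hL'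
    subst hL'
    simpa using hC
  | succ n ih =>
    have hn2 : (n : ℝ) * (B k + e k) ≤ w := by
      push_cast at hn'
      nlinarith
    have h1 := ih (by omega) hn2
    have hsum := sum_L1 (k := k) hs n (by omega)
    have hnot : 4 * (st k + n) + s ∉ L1 k s n := by
      intro h
      obtain ⟨a, ha, h | h⟩ := mem_L1 h <;> omega
    have hnotF : 4 * (st k + n) + s ∉ F := fun h => by
      have := hF _ h
      omega
    have h2 : OK F C (L1 k s n ++ [4 * (st k + n) + s]) := by
      refine h1.append hnot hnotF ?_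
      rw [hsum, xs_P hs, P_eq (by omega), ← smul_add, norm_smul, Real.norm_eq_abs, sign_abs hs,
        one_mul]
      unfold V
      rw [Prod.mk_add_mk, Prod.norm_def]
      apply max_le
      · simp only [zero_add]
        rw [Real.norm_eq_abs, abs_of_pos hp]
        exact hw'
      · simp only
        rw [Real.norm_eq_abs, abs_of_nonneg (by positivity)]
        linarith
    rw [L1]
    refine h2.append ?_ ?_ ?_
    · intro h
      rw [List.mem_append, List.mem_singleton] at h
      rcases h with h | h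
      · obtain ⟨a, ha, h | h⟩ := mem_L1 h <;> omega
      · omega
    · intro h
      have := hF _ h
      omega
    · have h3 := sum_L1 (k := k) hs (n + 1) hn
      rw [L1, List.map_append, List.sum_append] at h3
      simp only [List.map_cons, List.map_nil, List.sum_cons, List.sum_nil, add_zero] at h3 ⊢
      rw [h3, norm_smul, Real.norm_eq_abs, sign_abs hs, one_mul, Prod.norm_def]
      apply max_le
      · simpa using hC
      · simp only
        rw [Real.norm_eq_abs, abs_of_nonneg (by positivity)]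
        linarith

/-- second list -/
def L2 (k s : ℕ) (L : List ℕ) : ℕ → List ℕ
  | 0 => L
  | n + 1 => L2 k s L n ++ [4 * (st k + M k + n) + 2 + s]

lemma mem_L2 {k s n j : ℕ} {L : List ℕ} (h : j ∈ L2 k s L n) :
    j ∈ L ∨ ∃ a < n, j = 4 * (st k + M k + a) + 2 + s := by
  induction n with
  | zero => exact Or.inl h
  | succ n ih =>
    rw [L2, List.mem_append, List.mem_singleton] at h
    rcases h with h | h
    · rcases ih h with h | ⟨a, ha, h⟩
      · exact Or.inl h
      · exact Or.inr ⟨a, by omega, h⟩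
    · exact Or.inr ⟨n, by omega, h⟩

lemma sum_L2 {k s : ℕ} (hs : s ≤ 1) (L : List ℕ) (n : ℕ) (hn : n ≤ M k) :
    ((L2 k s L n).map xs).sum =
      (L.map xs).sum + (1 - 2 * (s : ℝ)) • ((n * (1 / 2) ^ k, 0) : ℝ × ℝ) := by
  induction n with
  | zero => simp [L2]
  | succ n ih =>
    rw [L2, List.map_append, List.sum_append, ih (by omega), add_assoc]
    simp only [List.map_cons, List.map_nil, List.sum_cons, List.sum_nil, add_zero]
    rw [xs_Q hs, Q_eq' (by omega), ← smul_add]
    unfold H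
    congr 2
    ext
    · simp only [Prod.mk_add_mk]
      push_cast
      ring
    · simp

lemma OK_L2 {F : Finset ℕ} {C : ℝ} {k s : ℕ} (hs : s ≤ 1) (hF : ∀ i ∈ F, i < 4 * st k)
    (s' n' : ℕ) (hs' : s' ≤ 1)
    (hL : OK F C (L1 k s' n')) (n : ℕ) (hn : n ≤ M k)
    (hC1 : (n : ℝ) * (1 / 2) ^ k ≤ C) (hn' : n' ≤ M k) (hC2 : n' * (B k + e k) ≤ C) :
    OK F C (L2 k s (L1 k s' n') n) := by
  have hB := B_pos k
  have he := e_pos k
  have hp : (0 : ℝ) < (1 / 2) ^ k := by positivity
  induction n with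
  | zero => exact hL
  | succ n ih =>
    have h0 : (n : ℝ) * (1 / 2) ^ k ≤ C := by
      push_cast at hC1
      nlinarith
    have h1 := ih (by omega) h0
    rw [L2]
    refine h1.append ?_ ?_ ?_
    · intro h
      rcases mem_L2 h with h | ⟨a, ha, h⟩
      · obtain ⟨a, ha, h | h⟩ := mem_L1 h <;> omega
      · omega
    · intro h
      have := hF _ h
      omega
    · have h3 := sum_L2 (k := k) hs (L1 k s' n') (n + 1) hn
      rw [L2, List.map_append, List.sum_append] at h3
      simp only [List.map_cons, List.map_nil, List.sum_cons, List.sum_nil, add_zero] at h3 ⊢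
      rw [h3, sum_L1 hs' n' hn', Prod.norm_def]
      simp only [Prod.smul_mk, Prod.mk_add_mk, smul_eq_mul, mul_zero, zero_add, add_zero]
      apply max_le
      · rw [norm_mul, Real.norm_eq_abs, sign_abs hs, one_mul, Real.norm_eq_abs,
          abs_of_nonneg (by positivity)]
        exact hC1
      · rw [norm_mul, Real.norm_eq_abs, sign_abs hs', one_mul, Real.norm_eq_abs,
          abs_of_nonneg (by positivity)]
        exact hC2

lemma exists_sign (w : ℝ) : ∃ s : ℕ, s ≤ 1 ∧ w = (1 - 2 * (s : ℝ)) * |w| := by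
  rcases le_or_gt 0 w with h | h
  · exact ⟨0, by norm_num, by rw [abs_of_nonneg h]; norm_num⟩
  · exact ⟨1, le_rfl, by rw [abs_of_neg h]; norm_num⟩

lemma exists_floor (w u : ℝ) (hw : 0 ≤ w) (hu : 0 < u) : ∃ n : ℕ, n * u ≤ w ∧ w - u ≤ n * u := by
  refine ⟨⌊w / u⌋₊, ?_, ?_⟩
  · have := Nat.floor_le (div_nonneg hw hu.le)
    rwa [le_div_iff₀ hu] at this
  · have := Nat.lt_floor_add_one (w / u)
    rw [div_lt_iff₀ hu] at this
    linarith

theorem correctable_xs : Correctable xs := by
  intro F w η hη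
  -- choose the block
  have e1 : ∀ᶠ k in atTop, bd k < η := tendsto_bd.eventually_lt_const hη
  have e2 : ∀ᶠ k in atTop, ‖w‖ ≤ 2 ^ k := by
    have : Tendsto (fun k : ℕ => (2 : ℝ) ^ k) atTop atTop :=
      tendsto_pow_atTop_atTop_of_one_lt (by norm_num)
    exact this.eventually_ge_atTop _
  have e3 : ∀ᶠ k in atTop, F.sup id < st k :=
    (st_strictMono.tendsto_atTop).eventually_gt_atTop _
  obtain ⟨k, hk1, hk2, hk3⟩ := (e1.and (e2.and e3)).exists
  have hB := B_pos k
  have he := e_pos k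
  have hp : (0 : ℝ) < (1 / 2) ^ k := by positivity
  have hF : ∀ i ∈ F, i < 4 * st k := by
    intro i hi
    have : i ≤ F.sup id := Finset.le_sup (f := id) hi
    omega
  unfold bd at hk1
  obtain ⟨s1, hs1, hw1⟩ := exists_sign w.1
  obtain ⟨s2, hs2, hw2⟩ := exists_sign w.2
  obtain ⟨n, hn1, hn2⟩ := exists_floor |w.2| (B k + e k) (abs_nonneg _) (by positivity)
  obtain ⟨m, hm1, hm2⟩ := exists_floor |w.1| ((1 / 2) ^ k) (abs_nonneg _) hp
  have hw1n : |w.1| ≤ ‖w‖ := norm_fst_le w
  have hw2n : |w.2| ≤ ‖w‖ := norm_snd_le w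
  have hnM : n ≤ M k := by
    have h1 : (n : ℝ) * B k ≤ M k * B k := by
      rw [M_mul_B, pow_succ]
      nlinarith
    have h2 : (n : ℝ) ≤ M k := le_of_mul_le_mul_right h1 hB
    exact_mod_cast h2
  have hmM : m ≤ M k := by
    have h1 : (m : ℝ) * (1 / 2) ^ k ≤ M k * (1 / 2) ^ k := by
      have h2 : (2 : ℝ) ^ k ≤ M k * (1 / 2) ^ k := by
        have h3 : (2 : ℝ) ^ (k + k) ≤ M k := by
          rw [M_cast]
          exact pow_le_pow_right₀ (by norm_num) (by have := le_bexp k; omega)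
        calc (2 : ℝ) ^ k = 2 ^ k * (2 ^ k * (1 / 2) ^ k) := by rw [← mul_pow]; norm_num
          _ = 2 ^ (k + k) * (1 / 2) ^ k := by rw [pow_add]; ring
          _ ≤ M k * (1 / 2) ^ k := by gcongr
      linarith
    have h2 : (m : ℝ) ≤ M k := le_of_mul_le_mul_right h1 hp
    exact_mod_cast h2
  have hOK1 : OK F (‖w‖ + η) (L1 k s2 n) :=
    OK_L1 hs2 hF |w.2| (by linarith) (by linarith [norm_nonneg w]) n hnM hn1
  have hOK2 : OK F (‖w‖ + η) (L2 k s1 (L1 k s2 n) m) :=
    OK_L2 hs1 hF s2 n hs2 hOK1 m hmM (by linarith) hnM (by linarith)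
  obtain ⟨ha, hb, hc⟩ := hOK2
  refine ⟨_, ha, hb, ?_, hc⟩
  rw [sum_L2 hs1 _ m hmM, sum_L1 hs2 n hnM, Prod.norm_def]
  simp only [Prod.smul_mk, Prod.mk_add_mk, smul_eq_mul, mul_zero, zero_add, add_zero, Prod.fst_sub,
    Prod.snd_sub]
  apply max_le
  · rw [hw1, ← mul_sub, norm_mul, Real.norm_eq_abs, sign_abs hs1, one_mul, Real.norm_eq_abs,
      abs_le]
    constructor <;> linarith
  · rw [hw2, ← mul_sub, norm_mul, Real.norm_eq_abs, sign_abs hs2, one_mul, Real.norm_eq_abs,
      abs_le]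
    constructor <;> linarith

theorem sumRange_xs : sumRange xs = Set.univ := sumRange_of_correctable correctable_xs tendsto_xs

end Pool.Agent.Lib.MP_160bbb_an_Achieve
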