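import Pool.Agent.Lib.MP_160bbb_an_Achieve.Part6
import Pool.Agent.Lib.MP_160bbb_an_Achieve.Part7

/-!
# Size of the achievement set
-/

open Filter Topology MeasureTheory

namespace Pool.Agent.Lib.MP_160bbb_an_Achieve

lemma width_pos (k : ℕ) : 0 < (2 * (M k : ℝ) - 2 ^ k) * e k := by
  have h1 : (2 : ℝ) ^ (k + 1) ≤ M k := by exact_mod_cast two_pow_le_M k
  have h2 := e_pos k
  have h3 : (0 : ℝ) < 2 ^ k := by positivity
  rw [pow_succ] at h1
  apply mul_pos _ h2
  linarith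

/-- the open dense sets -/
def U (K : ℕ) : Set (ℝ × ℝ) :=
  {p | ∃ k, K ≤ k ∧ ∃ n : ℤ, |p.2 - n * B k| < (2 * M k - 2 ^ k) * e k}

lemma isOpen_U (K : ℕ) : IsOpen (U K) := by
  have : U K = ⋃ k, ⋃ (_ : K ≤ k), ⋃ n : ℤ,
      {p : ℝ × ℝ | |p.2 - n * B k| < (2 * M k - 2 ^ k) * e k} := by
    ext p
    simp [U]
  rw [this]
  refine isOpen_iUnion fun k => isOpen_iUnion fun _ => isOpen_iUnion fun n => ?_
  exact isOpen_lt (by fun_prop) (by fun_prop)

lemma dense_U (K : ℕ) : Dense (U K) := by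
  rw [Metric.dense_iff]
  intro p r hr
  obtain ⟨k, hk1, hk2⟩ : ∃ k, B k < r ∧ K ≤ k :=
    ((tendsto_B.eventually_lt_const hr).and (eventually_ge_atTop K)).exists
  refine ⟨(p.1, (round (p.2 / B k) : ℝ) * B k), ?_, k, hk2, round (p.2 / B k), ?_⟩
  · rw [Metric.mem_ball, dist_eq_norm, Prod.norm_def]
    simp only [Prod.fst_sub, Prod.snd_sub, sub_self, norm_zero]
    apply max_lt hr
    rw [Real.norm_eq_abs, abs_sub_comm]
    have := abs_sub_tt k p.2
    unfold tt at this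
    have := B_pos k
    linarith
  · simp only [sub_self, abs_zero]
    exact width_pos k

theorem not_isMeagre : ¬ IsMeagre (achievementSet xs) := by
  intro h
  have h1 : ((achievementSet xs)ᶜ ∩ ⋂ K, U K) ∈ residual (ℝ × ℝ) := by
    apply inter_mem h
    rw [countable_iInter_mem]
    exact fun K => residual_of_dense_open (isOpen_U K) (dense_U K)
  have h2 := dense_of_mem_residual h1
  have h3 : IsOpen (Set.Ioo (-1 : ℝ) 1 ×ˢ Set.Ioo (-(1 / 2) : ℝ) (1 / 2)) :=
    isOpen_Ioo.prod isOpen_Ioo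
  obtain ⟨p, ⟨hp2, hp3⟩, hx, hy⟩ := h2.exists_mem_open h3 ⟨(0, 0), by norm_num⟩
  apply hp2
  apply mem_achievementSet p (abs_le.2 ⟨hx.1.le, hx.2.le⟩) (abs_le.2 ⟨hy.1.le, hy.2.le⟩)
  intro K
  rw [Set.mem_iInter] at hp3
  obtain ⟨k, hk, n, hn⟩ := hp3 K
  exact ⟨k, hk, n, hn.le⟩

/-! ### Measure -/

/-- the points of the interval for which stage `k` is not good -/
def bad (k : ℕ) : Set ℝ := {y | |y| ≤ 1 / 2 ∧ ¬ Good k y}

lemma inv_B (k : ℕ) : (2 : ℝ) ^ bexp k * B k = 1 := by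
  unfold B; rw [← mul_pow]; norm_num

lemma bad_subset (k : ℕ) : bad k ⊆ ⋃ n ∈ Finset.Icc (-(2 : ℤ) ^ bexp k) (2 ^ bexp k),
    Set.Ioo (n * B k + (2 * M k - 2 ^ k) * e k) (n * B k + (2 * M k + 2 ^ k) * e k) := by
  rintro y ⟨hy1, hy2⟩
  have hB := B_pos k
  have hy := abs_le.1 hy1
  set n := ⌊y / B k⌋ with hn
  have h1 : n * B k ≤ y := by
    have := Int.floor_le (y / B k)
    rwa [le_div_iff₀ hB] at this
  have h2 : y < (n + 1) * B k := by
    have := Int.lt_floor_add_one (y / B k)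
    rwa [div_lt_iff₀ hB] at this
  unfold Good at hy2
  push Not at hy2
  have h3 := hy2 n
  have h4 := hy2 (n + 1)
  rw [abs_of_nonneg (by linarith)] at h3
  push_cast at h4
  rw [abs_of_neg (by linarith)] at h4
  have hBeq := B_eq k
  rw [Set.mem_iUnion₂]
  refine ⟨n, ?_, ?_, ?_⟩
  · rw [Finset.mem_Icc]
    have hinv := inv_B k
    have hpow : (1 : ℝ) ≤ 2 ^ bexp k := one_le_pow₀ (by norm_num)
    constructor
    · have : (-(2 : ℝ) ^ bexp k) - 1 < n := by
        have h5 : (-(2 : ℝ) ^ bexp k) * B k < (n + 1) * B k := by nlinarith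
        have := lt_of_mul_lt_mul_right h5 hB.le
        linarith
      have : (-(2 : ℤ) ^ bexp k) - 1 < n := by exact_mod_cast this
      omega
    · have : (n : ℝ) ≤ 2 ^ bexp k := by
        have h5 : (n : ℝ) * B k ≤ 2 ^ bexp k * B k := by linarith
        exact le_of_mul_le_mul_right h5 hB
      exact_mod_cast this
  · linarith
  · linarith

lemma volume_bad_le (k : ℕ) : volume (bad k) ≤ ENNReal.ofReal (3 / 4 * (1 / 2) ^ bexp k) := by
  refine (measure_mono (bad_subset k)).trans ((measure_biUnion_finset_le _ _).trans ?_)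
  have he := e_pos k
  have h1 : ∀ n : ℤ, volume (Set.Ioo (n * B k + (2 * M k - 2 ^ k) * e k)
      (n * B k + (2 * M k + 2 ^ k) * e k)) = ENNReal.ofReal (2 * 2 ^ k * e k) := by
    intro n
    rw [Real.volume_Ioo]
    congr 1
    ring
  simp only [h1]
  rw [Finset.sum_const, nsmul_eq_mul, ← ENNReal.ofReal_natCast, ← ENNReal.ofReal_mul (by positivity)]
  apply ENNReal.ofReal_le_ofReal
  have hcard : ((Finset.Icc (-(2 : ℤ) ^ bexp k) (2 ^ bexp k)).card : ℝ) ≤ 3 * 2 ^ bexp k := by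
    rw [Int.card_Icc]
    have h2 : (1 : ℤ) ≤ 2 ^ bexp k := one_le_pow₀ (by norm_num)
    have h3 : (((2 : ℤ) ^ bexp k + 1 - -2 ^ bexp k).toNat : ℤ) ≤ 3 * 2 ^ bexp k := by
      rw [Int.toNat_of_nonneg (by linarith)]
      linarith
    exact_mod_cast h3
  have h4 : (2 : ℝ) ^ bexp k * (2 * 2 ^ k * e k) = 1 / 4 * (1 / 2) ^ bexp k := by
    have h5 : B k = 4 * M k * e k := B_eq k
    have h6 := inv_B k
    have h7 : (M k : ℝ) = 2 ^ (k + 1) * 2 ^ bexp k := by rw [M_cast, pow_add]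
    have h8 : B k = (1 / 2) ^ bexp k := rfl
    rw [← h8, h5, h7]
    rw [pow_succ]
    ring
  calc ((Finset.Icc (-(2 : ℤ) ^ bexp k) (2 ^ bexp k)).card : ℝ) * (2 * 2 ^ k * e k)
      ≤ (3 * 2 ^ bexp k) * (2 * 2 ^ k * e k) := by gcongr
    _ = 3 * ((2 : ℝ) ^ bexp k * (2 * 2 ^ k * e k)) := by ring
    _ = 3 / 4 * (1 / 2) ^ bexp k := by rw [h4]; ring

/-- the points all of whose stages `k ≥ 1` are good -/
def goodSet : Set ℝ := {y | |y| ≤ 1 / 2 ∧ ∀ k, Good (k + 1) y}

lemma bexp_succ_ge (k : ℕ) : k + 4 ≤ bexp (k + 1) := by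
  rw [bexp]; omega

lemma volume_goodSet_pos : 0 < volume goodSet := by
  by_contra hcon
  have h0 : volume goodSet = 0 := by simpa using hcon
  have h1 : Set.Icc (-(1 / 2) : ℝ) (1 / 2) ⊆ goodSet ∪ ⋃ k, bad (k + 1) := by
    intro y hy
    have hy' : |y| ≤ 1 / 2 := abs_le.2 ⟨hy.1, hy.2⟩
    by_cases h : ∀ k, Good (k + 1) y
    · exact Or.inl ⟨hy', h⟩
    · push Not at h
      obtain ⟨k, hk⟩ := h
      exact Or.inr (Set.mem_iUnion.2 ⟨k, hy', hk⟩)
  have h2 : volume (Set.Icc (-(1 / 2) : ℝ) (1 / 2)) = 1 := by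
    rw [Real.volume_Icc]; norm_num
  have h3 : volume (⋃ k, bad (k + 1)) ≤ ENNReal.ofReal (3 / 32) := by
    refine (measure_iUnion_le _).trans ?_
    have h4 : ∀ k, volume (bad (k + 1)) ≤ ENNReal.ofReal (3 / 64 * (1 / 2) ^ k) := by
      intro k
      refine (volume_bad_le (k + 1)).trans (ENNReal.ofReal_le_ofReal ?_)
      have : (1 / 2 : ℝ) ^ bexp (k + 1) ≤ (1 / 2) ^ (k + 4) :=
        pow_le_pow_of_le_one (by norm_num) (by norm_num) (bexp_succ_ge k)
      rw [pow_add] at this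
      norm_num at this ⊢
      linarith
    refine (ENNReal.tsum_le_tsum h4).trans ?_
    rw [← ENNReal.ofReal_tsum_of_nonneg]
    · apply ENNReal.ofReal_le_ofReal
      rw [tsum_mul_left, tsum_geometric_of_lt_one (by norm_num) (by norm_num)]
      norm_num
    · intro n; positivity
    · exact (summable_geometric_of_lt_one (by norm_num) (by norm_num)).mul_left _
  have h5 : volume (Set.Icc (-(1 / 2) : ℝ) (1 / 2)) ≤
      volume goodSet + volume (⋃ k, bad (k + 1)) :=
    (measure_mono h1).trans (measure_union_le _ _)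
  rw [h2, h0, zero_add] at h5
  have h6 := h5.trans h3
  rw [← ENNReal.ofReal_one, ENNReal.ofReal_le_ofReal_iff (by norm_num)] at h6
  norm_num at h6

theorem volume_pos : 0 < volume (achievementSet xs) := by
  have h1 : Set.Icc (-1 : ℝ) 1 ×ˢ goodSet ⊆ achievementSet xs := by
    rintro p ⟨hx, hy, hg⟩
    apply mem_achievementSet p (abs_le.2 ⟨hx.1, hx.2⟩) hy
    intro K
    exact ⟨K + 1, by omega, hg K⟩
  refine lt_of_lt_of_le ?_ (measure_mono h1)
  rw [Measure.volume_eq_prod, Measure.prod_prod]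
  apply ENNReal.mul_pos
  · rw [Real.volume_Icc]; norm_num
  · exact volume_goodSet_pos.ne'

/-! ### Conclusion -/

lemma condConvergent_of_sumRange {x : ℕ → ℝ × ℝ} (h : sumRange x = Set.univ)
    (hc : ∃ s, SumsTo x s) : CondConvergent x := by
  refine ⟨hc, fun hs => ?_⟩
  have h1 : Summable x := hs.of_norm
  obtain ⟨σ, hσ⟩ : ((tsum x + (1, 0)) : ℝ × ℝ) ∈ sumRange x := by rw [h]; trivial
  have h2 : HasSum (fun n => x (σ n)) (tsum x) := (Equiv.hasSum_iff σ).2 h1.hasSum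
  have h3 := tendsto_nhds_unique h2.tendsto_sum_nat hσ
  have h4 := congrArg Prod.fst h3
  simp at h4

lemma sumsTo_xs : SumsTo xs 0 := by
  apply sumsTo_of_groups _ _ tendsto_xs
  have : (fun G => ∑ n ∈ Finset.range (4 * G), xs n) = fun _ => 0 := by
    funext G
    rw [sum_range_four]
    apply Finset.sum_eq_zero
    intro g _
    rw [xs_zero, xs_one, xs_two, xs_three]
    abel
  rw [this]
  exact tendsto_const_nhds

/-- There is a conditionally convergent series in the plane whose sum range is the whole plane and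
whose achievement set is not the whole plane, has positive outer measure and is not meagre. -/
theorem main : ∃ x : ℕ → ℝ × ℝ, CondConvergent x ∧ sumRange x = Set.univ ∧
    achievementSet x ≠ Set.univ ∧ 0 < volume (achievementSet x) ∧
    ¬ IsMeagre (achievementSet x) := by
  refine ⟨xs, condConvergent_of_sumRange sumRange_xs ⟨0, sumsTo_xs⟩, sumRange_xs, ?_, volume_pos,
    not_isMeagre⟩
  intro h
  exact notMem_achievementSet 0 (by rw [h]; trivial)

end Pool.Agent.Lib.MP_160bbb_an_Achieve
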